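import Mathlib

/-!
# Project CX, block N: the three cases for the maximal multiplicities
-/

namespace Pool.Agent.CX

variable {r : ℕ}

private lemma f_nonneg_N52 {a : ℕ} (ha : 1 ≤ a) : (0 : ℝ) ≤ 1 - 1 / (a : ℝ) := by
  have h1 : (1 : ℝ) ≤ (a : ℝ) := by exact_mod_cast ha
  have h0 : (0 : ℝ) < (a : ℝ) := by linarith
  rw [sub_nonneg, div_le_one h0]
  exact h1

private lemma f_ge_N52 {a b : ℕ} (hb : 1 ≤ b) (ha : b ≤ a) :
    1 - 1 / (b : ℝ) ≤ 1 - 1 / (a : ℝ) := by
  have h1 : (b : ℝ) ≤ (a : ℝ) := by exact_mod_cast ha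
  have h0 : (0 : ℝ) < (b : ℝ) := by exact_mod_cast hb
  have h2 : 1 / (a : ℝ) ≤ 1 / (b : ℝ) := one_div_le_one_div_of_le h0 h1
  linarith

theorem cases (hr : 2 ≤ r) (m : Fin r → ℕ) (hm : ∀ p, 1 ≤ m p)
    (hs : ∑ p, (1 - 1 / (m p : ℝ)) ≤ 2) :
    (∀ p, m p ≤ 6) ∨ (∃ p₁ p₂, p₁ ≠ p₂ ∧ ∀ q, q ≠ p₁ → q ≠ p₂ → m q = 1) ∨
      ∃ p₀, (∀ q, q ≠ p₀ → m q ≤ 2) ∧
        (Finset.univ.filter fun q => q ≠ p₀ ∧ m q = 2).card ≤ 2 := by
  classical
  by_cases h6 : ∀ p, m p ≤ 6
  · exact Or.inl h6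
  right
  push Not at h6
  obtain ⟨p₀, hp₀⟩ := h6
  have hp7 : 6 / 7 ≤ 1 - 1 / (m p₀ : ℝ) := by
    have := f_ge_N52 (a := m p₀) (b := 7) (by norm_num) hp₀
    norm_num at this ⊢
    linarith
  have hsum : ∑ q ∈ Finset.univ.erase p₀, (1 - 1 / (m q : ℝ)) ≤ 8 / 7 := by
    have := Finset.add_sum_erase Finset.univ (fun q => (1 - 1 / (m q : ℝ))) (Finset.mem_univ p₀)
    linarith
  -- sums over subsets
  have hsub : ∀ T : Finset (Fin r), p₀ ∉ T → ∑ q ∈ T, (1 - 1 / (m q : ℝ)) ≤ 8 / 7 := by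
    intro T hT
    refine le_trans (Finset.sum_le_sum_of_subset_of_nonneg ?_ ?_) hsum
    · intro q hq
      rw [Finset.mem_erase]
      exact ⟨fun h => hT (h ▸ hq), Finset.mem_univ q⟩
    · intro q _ _
      exact f_nonneg_N52 (hm q)
  set S : Finset (Fin r) := Finset.univ.filter fun q => q ≠ p₀ ∧ 2 ≤ m q with hS
  have hp₀S : p₀ ∉ S := by simp [hS]
  have hcard : S.card ≤ 2 := by
    by_contra hc
    push Not at hc
    have h1 := hsub S hp₀S
    have h2 : ∑ _q ∈ S, (1 / 2 : ℝ) ≤ ∑ q ∈ S, (1 - 1 / (m q : ℝ)) := by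
      refine Finset.sum_le_sum fun q hq => ?_
      have hq2 : 2 ≤ m q := (Finset.mem_filter.mp hq).2.2
      have := f_ge_N52 (a := m q) (b := 2) (by norm_num) hq2
      norm_num at this ⊢
      linarith
    rw [Finset.sum_const, nsmul_eq_mul] at h2
    have h3 : (3 : ℝ) ≤ (S.card : ℝ) := by exact_mod_cast hc
    linarith
  by_cases hc1 : S.card ≤ 1
  · left
    by_cases hne : S.Nonempty
    · obtain ⟨q₁, hq₁⟩ := hne
      refine ⟨p₀, q₁, fun h => hp₀S (h ▸ hq₁), fun q h1 h2 => ?_⟩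
      by_contra hq
      have hqS : q ∈ S := by
        rw [hS, Finset.mem_filter]
        have := hm q
        exact ⟨Finset.mem_univ q, h1, by omega⟩
      exact h2 (Finset.card_le_one.mp hc1 q hqS q₁ hq₁)
    · have hex : ∃ p₂ : Fin r, p₂ ≠ p₀ := by
        have : Nontrivial (Fin r) := Fin.nontrivial_iff_two_le.mpr hr
        exact exists_ne p₀
      obtain ⟨p₂, hp₂⟩ := hex
      refine ⟨p₀, p₂, hp₂.symm, fun q h1 _ => ?_⟩
      by_contra hq
      apply hne
      refine ⟨q, ?_⟩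
      rw [hS, Finset.mem_filter]
      have := hm q
      exact ⟨Finset.mem_univ q, h1, by omega⟩
  · right
    have hc2 : S.card = 2 := by omega
    refine ⟨p₀, fun q hq => ?_, ?_⟩
    · by_contra hq2
      push Not at hq2
      have hqS : q ∈ S := by
        rw [hS, Finset.mem_filter]
        exact ⟨Finset.mem_univ q, hq, by omega⟩
      have h1 := hsub S hp₀S
      have h2 := Finset.add_sum_erase S (fun q => (1 - 1 / (m q : ℝ))) hqS
      have h3 : 2 / 3 ≤ 1 - 1 / (m q : ℝ) := by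
        have := f_ge_N52 (a := m q) (b := 3) (by norm_num) hq2
        norm_num at this ⊢
        linarith
      have h4 : 1 / 2 ≤ ∑ x ∈ S.erase q, (1 - 1 / (m x : ℝ)) := by
        have hce : (S.erase q).card = 1 := by rw [Finset.card_erase_of_mem hqS, hc2]
        obtain ⟨q', hq'⟩ := Finset.card_eq_one.mp hce
        have hq'S : q' ∈ S := by
          have : q' ∈ S.erase q := by rw [hq']; simp
          exact Finset.mem_of_mem_erase this
        have hq'2 : 2 ≤ m q' := (Finset.mem_filter.mp hq'S).2.2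
        rw [hq', Finset.sum_singleton]
        have := f_ge_N52 (a := m q') (b := 2) (by norm_num) hq'2
        norm_num at this ⊢
        linarith
      linarith
    · refine le_trans (Finset.card_le_card ?_) hcard
      intro q hq
      rw [Finset.mem_filter] at hq
      rw [hS, Finset.mem_filter]
      exact ⟨hq.1, hq.2.1, hq.2.2.ge⟩

end Pool.Agent.CX
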