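import Pool.Agent.Helper45.CX.Defs

/-!
# Block CX-T: finitely many sections suffice (compactness)
-/

namespace Pool.Agent.CX

variable {e r : ℕ}

/-- the linear form of a section over `p` -/
def lin32Cpt {e r : ℕ} (n : ℕ) (p : Fin r) (x : (Fin e → ℤ) × (Fin r → ℤ)) (w : (Fin e → ℝ) × ℝ) : ℝ :=
  ∑ i, (x.1 i : ℝ) * w.1 i + w.2 * ((x.2 p : ℝ) - n)

theorem continuous_lin32Cpt (n : ℕ) (p : Fin r) (x : (Fin e → ℤ) × (Fin r → ℤ)) :
    Continuous (lin32Cpt n p x) := by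
  unfold lin32Cpt
  fun_prop

theorem lin_smul32Cpt (n : ℕ) (p : Fin r) (x : (Fin e → ℤ) × (Fin r → ℤ)) (c : ℝ)
    (w : (Fin e → ℝ) × ℝ) : lin32Cpt n p x (c • w) = c * lin32Cpt n p x w := by
  unfold lin32Cpt
  simp only [Prod.smul_fst, Prod.smul_snd, Pi.smul_apply, smul_eq_mul]
  rw [mul_add, Finset.mul_sum]
  congr 1
  · refine Finset.sum_congr rfl fun i _ => ?_
    ring
  · ring

/-- the compact set of directions over `p` -/
def dirs32Cpt (X : Dat e r) (p : Fin r) : Set ((Fin e → ℝ) × ℝ) :=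
  {w | ‖w‖ = 1 ∧ 0 ≤ w.2 ∧ (IsEmpty (X.I p) → w.2 = 0)}

theorem isCompact_dirs32Cpt (X : Dat e r) (p : Fin r) : IsCompact (dirs32Cpt X p) := by
  have h1 : IsClosed {w : (Fin e → ℝ) × ℝ | ‖w‖ = 1} :=
    isClosed_eq continuous_norm continuous_const
  have h2 : IsClosed {w : (Fin e → ℝ) × ℝ | 0 ≤ w.2} := isClosed_le continuous_const continuous_snd
  have h3 : IsClosed {w : (Fin e → ℝ) × ℝ | IsEmpty (X.I p) → w.2 = 0} := by
    by_cases h : IsEmpty (X.I p)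
    · have : {w : (Fin e → ℝ) × ℝ | IsEmpty (X.I p) → w.2 = 0} = {w | w.2 = 0} := by
        ext w; simp [h]
      rw [this]
      exact isClosed_eq continuous_snd continuous_const
    · have : {w : (Fin e → ℝ) × ℝ | IsEmpty (X.I p) → w.2 = 0} = Set.univ := by
        ext w; simp [h]
      rw [this]
      exact isClosed_univ
  have hcl : IsClosed (dirs32Cpt X p) := by
    have : dirs32Cpt X p = {w : (Fin e → ℝ) × ℝ | ‖w‖ = 1} ∩ ({w | 0 ≤ w.2} ∩
        {w | IsEmpty (X.I p) → w.2 = 0}) := by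
      ext w; simp [dirs32Cpt]
    rw [this]
    exact h1.inter (h2.inter h3)
  refine Metric.isCompact_of_isClosed_isBounded hcl ?_
  refine (Metric.isBounded_closedBall (x := (0 : (Fin e → ℝ) × ℝ)) (r := 1)).subset ?_
  intro w hw
  rw [mem_closedBall_zero_iff]
  exact hw.1.le

/-- **CX-T** -/
theorem exists_finset (X : Dat e r) {n : ℕ} (h : X.PW n) :
    ∃ T : Finset ((Fin e → ℤ) × (Fin r → ℤ)), (∀ x ∈ T, X.Sec n x.1 x.2) ∧ (∃ x ∈ T, x.1 = 0) ∧
      ∀ (p : Fin r) (y : Fin e → ℝ) (k : ℝ), 0 ≤ k → (y ≠ 0 ∨ k ≠ 0) → (IsEmpty (X.I p) → k = 0) →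
        ∃ x ∈ T, ∑ i, (x.1 i : ℝ) * y i + k * ((x.2 p : ℝ) - n) < 0 := by
  classical
  obtain ⟨⟨z0, hz0⟩, hPW⟩ := h
  have key : ∀ p : Fin r, ∃ t : Finset {x : (Fin e → ℤ) × (Fin r → ℤ) // X.Sec n x.1 x.2},
      dirs32Cpt X p ⊆ ⋃ x ∈ t, {w | lin32Cpt n p x.1 w < 0} := by
    intro p
    refine (isCompact_dirs32Cpt X p).elim_finite_subcover
      (fun x : {x : (Fin e → ℤ) × (Fin r → ℤ) // X.Sec n x.1 x.2} => {w | lin32Cpt n p x.1 w < 0})
      (fun x => isOpen_lt (continuous_lin32Cpt n p x.1) continuous_const) ?_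
    intro w hw
    obtain ⟨h1, h2, h3⟩ := hw
    have hne : w.1 ≠ 0 ∨ w.2 ≠ 0 := by
      by_contra hcon
      push Not at hcon
      have : w = 0 := Prod.ext hcon.1 hcon.2
      rw [this, norm_zero] at h1
      exact zero_ne_one h1
    obtain ⟨u, z, hs, hlt⟩ := hPW p w.1 w.2 h2 hne h3
    exact Set.mem_iUnion.2 ⟨⟨(u, z), hs⟩, hlt⟩
  choose t ht using key
  refine ⟨insert (0, z0) (Finset.univ.biUnion fun p => (t p).image Subtype.val), ?_, ?_, ?_⟩
  · intro x hx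
    rcases Finset.mem_insert.1 hx with rfl | hx
    · exact hz0
    · obtain ⟨p, _, hp⟩ := Finset.mem_biUnion.1 hx
      obtain ⟨x', _, rfl⟩ := Finset.mem_image.1 hp
      exact x'.2
  · exact ⟨(0, z0), Finset.mem_insert_self _ _, rfl⟩
  · intro p y k hk hyk hI
    set w : (Fin e → ℝ) × ℝ := (y, k) with hw
    have hw0 : w ≠ 0 := by
      intro h0
      rw [hw, Prod.mk_eq_zero] at h0
      rcases hyk with h | h
      · exact h h0.1
      · exact h h0.2
    have hn : 0 < ‖w‖ := norm_pos_iff.2 hw0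
    have hmem : (‖w‖⁻¹ • w) ∈ dirs32Cpt X p := by
      refine ⟨?_, ?_, ?_⟩
      · rw [norm_smul, norm_inv, norm_norm, inv_mul_cancel₀ hn.ne']
      · exact mul_nonneg (inv_nonneg.2 hn.le) hk
      · intro hE
        have : k = 0 := hI hE
        simp [hw, this]
    obtain ⟨x, hx⟩ := Set.mem_iUnion.1 (ht p hmem)
    obtain ⟨hxt, hlt⟩ := Set.mem_iUnion.1 hx
    refine ⟨x.1, Finset.mem_insert_of_mem (Finset.mem_biUnion.2 ⟨p, Finset.mem_univ _,
      Finset.mem_image.2 ⟨x, hxt, rfl⟩⟩), ?_⟩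
    have hlt' : lin32Cpt n p x.1 (‖w‖⁻¹ • w) < 0 := hlt
    rw [lin_smul32Cpt] at hlt'
    have : lin32Cpt n p x.1 w < 0 := by
      by_contra hcon
      push Not at hcon
      exact absurd hlt' (not_lt.2 (mul_nonneg (inv_nonneg.2 hn.le) hcon))
    simpa [lin32Cpt, hw] using this

end Pool.Agent.CX
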