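import Pool.Agent.Helper45.CX.Defs

/-!
# CX-S2: Caratheodory and rounding down
-/

set_option autoImplicit false

namespace Pool.Agent.CX

open Finset

/-- Naturals below `F` with prescribed sum. -/
private theorem exists_below_floor {ι : Type} [Fintype ι] (F : ι → ℕ) :
    ∀ j : ℕ, j ≤ ∑ i, F i → ∃ c : ι → ℕ, (∀ i, c i ≤ F i) ∧ ∑ i, c i = j := by
  classical
  intro j
  induction j with
  | zero => exact fun _ => ⟨fun _ => 0, fun _ => Nat.zero_le _, by simp⟩
  | succ j ih =>
    intro hj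
    obtain ⟨c, hc, hs⟩ := ih (by omega)
    have hlt : ∑ i, c i < ∑ i, F i := by omega
    obtain ⟨i, -, hi⟩ := Finset.exists_lt_of_sum_lt hlt
    refine ⟨Function.update c i (c i + 1), fun k => ?_, ?_⟩
    · by_cases hk : k = i
      · subst hk; rw [Function.update_self]; exact hi
      · rw [Function.update_of_ne hk]; exact hc k
    · rw [Finset.sum_update_of_mem (Finset.mem_univ i)]
      have h2 : ∑ x, c x = c i + ∑ x ∈ univ \ {i}, c x := by
        rw [← Finset.sum_sdiff (Finset.subset_univ {i}), Finset.sum_singleton, add_comm]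
      omega

/-- One step of the Caratheodory reduction. -/
private theorem step_floor {e : ℕ} {ι : Type} [Fintype ι] [DecidableEq ι] (q : ι → Fin e → ℤ) (ν : ι → ℝ)
    (hν : ∀ i, 0 ≤ ν i) (hcard : e + 1 < (univ.filter fun i => ν i ≠ 0).card) :
    ∃ ν' : ι → ℝ, (∀ i, 0 ≤ ν' i) ∧ ∑ i, ν' i = ∑ i, ν i ∧
      (∀ x, ∑ i, ν' i * (q i x : ℝ) = ∑ i, ν i * (q i x : ℝ)) ∧
      (univ.filter fun i => ν' i ≠ 0).card < (univ.filter fun i => ν i ≠ 0).card := by
  set S : Finset ι := univ.filter fun i => ν i ≠ 0 with hS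
  -- the linear map
  let L : (S → ℝ) →ₗ[ℝ] (Fin e → ℝ) × ℝ :=
    { toFun := fun f => (fun x => ∑ i : S, f i * (q i x : ℝ), ∑ i : S, f i)
      map_add' := by
        intro f g
        ext x
        · simp [add_mul, Finset.sum_add_distrib]
        · simp [Finset.sum_add_distrib]
      map_smul' := by
        intro c f
        ext x
        · simp [Finset.mul_sum, mul_assoc]
        · simp [Finset.mul_sum] }
  have hfr : Module.finrank ℝ ((Fin e → ℝ) × ℝ) < Module.finrank ℝ (S → ℝ) := by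
    rw [Module.finrank_prod, Module.finrank_fin_fun, Module.finrank_self, Module.finrank_fintype_fun_eq_card,
      Fintype.card_coe]
    exact hcard
  have hker := LinearMap.ker_ne_bot_of_finrank_lt (f := L) hfr
  obtain ⟨f, hf, hf0⟩ := (Submodule.ne_bot_iff _).1 hker
  rw [LinearMap.mem_ker] at hf
  have h1 : ∀ x, ∑ i : S, f i * (q i x : ℝ) = 0 := fun x => congrFun (congrArg Prod.fst hf) x
  have h2 : ∑ i : S, f i = 0 := congrArg Prod.snd hf
  -- some value is positive
  have hpos : ∃ i : S, 0 < f i := by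
    by_contra hcon
    push Not at hcon
    apply hf0
    funext i
    have := (Finset.sum_eq_zero_iff_of_nonpos (fun i _ => hcon i)).1 h2 i (Finset.mem_univ i)
    exact this
  -- extension by zero
  set F : ι → ℝ := fun i => if h : i ∈ S then f ⟨i, h⟩ else 0 with hF
  have hFs : ∀ (g : ι → ℝ), ∑ i, F i * g i = ∑ i : S, f i * g i := by
    intro g
    rw [← Finset.sum_subset (Finset.subset_univ S) (f := fun i => F i * g i)]
    · rw [← Finset.sum_coe_sort S (fun i => F i * g i)]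
      refine Finset.sum_congr rfl fun i _ => ?_
      simp only [hF]
      rw [dif_pos i.2]
    · intro i _ hi
      simp only [hF]
      rw [dif_neg hi, zero_mul]
  have hF1 : ∑ i, F i = 0 := by
    have := hFs (fun _ => 1)
    simp only [mul_one] at this
    rw [this, h2]
  have hFq : ∀ x, ∑ i, F i * (q i x : ℝ) = 0 := fun x => by
    rw [hFs (fun i => (q i x : ℝ))]; exact h1 x
  obtain ⟨i0, hi0⟩ := hpos
  have hne : (univ.filter fun i => 0 < F i).Nonempty := ⟨i0, by
    rw [Finset.mem_filter]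
    refine ⟨Finset.mem_univ _, ?_⟩
    simp only [hF]
    rw [dif_pos i0.2]
    exact hi0⟩
  obtain ⟨i1, hi1, hmin⟩ := Finset.exists_min_image _ (fun i => ν i / F i) hne
  have hi1p : 0 < F i1 := (Finset.mem_filter.1 hi1).2
  have hi1S : i1 ∈ S := by
    by_contra h
    have : F i1 = 0 := by simp only [hF]; rw [dif_neg h]
    linarith
  set t : ℝ := ν i1 / F i1 with ht
  have ht0 : 0 ≤ t := div_nonneg (hν i1) hi1p.le
  refine ⟨fun i => ν i - t * F i, fun i => ?_, ?_, fun x => ?_, ?_⟩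
  · rcases le_or_gt (F i) 0 with hle | hgt
    · have : t * F i ≤ 0 := mul_nonpos_of_nonneg_of_nonpos ht0 hle
      have := hν i
      simp only
      linarith
    · have := hmin i (Finset.mem_filter.2 ⟨Finset.mem_univ _, hgt⟩)
      have h3 : t * F i ≤ ν i := by
        rw [← le_div_iff₀ hgt]; exact this
      simp only
      linarith
  · rw [Finset.sum_sub_distrib, ← Finset.mul_sum, hF1, mul_zero, sub_zero]
  · have : ∑ i, (ν i - t * F i) * (q i x : ℝ) = ∑ i, ν i * (q i x : ℝ) - t * ∑ i, F i * (q i x : ℝ) := by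
      rw [Finset.mul_sum, ← Finset.sum_sub_distrib]
      exact Finset.sum_congr rfl fun i _ => by ring
    rw [this, hFq x, mul_zero, sub_zero]
  · apply Finset.card_lt_card
    rw [Finset.ssubset_iff_of_subset]
    · refine ⟨i1, hi1S, ?_⟩
      rw [Finset.mem_filter]
      rintro ⟨-, h⟩
      apply h
      change ν i1 - t * F i1 = 0
      rw [ht, div_mul_cancel₀ _ hi1p.ne', sub_self]
    · intro i hi
      rw [Finset.mem_filter] at hi
      by_contra h
      apply hi.2
      have h4 : F i = 0 := by simp only [hF]; rw [dif_neg h]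
      have h5 : ν i = 0 := by
        by_contra h6
        exact h (by rw [hS, Finset.mem_filter]; exact ⟨Finset.mem_univ _, h6⟩)
      change ν i - t * F i = 0
      rw [h4, h5, mul_zero, sub_zero]

/-- Caratheodory: at most `e + 1` nonzero weights. -/
private theorem carath_floor {e : ℕ} {ι : Type} [Fintype ι] [DecidableEq ι] (q : ι → Fin e → ℤ) :
    ∀ (n : ℕ) (ν : ι → ℝ), (∀ i, 0 ≤ ν i) → (univ.filter fun i => ν i ≠ 0).card ≤ n →
    ∃ ν' : ι → ℝ, (∀ i, 0 ≤ ν' i) ∧ ∑ i, ν' i = ∑ i, ν i ∧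
      (∀ x, ∑ i, ν' i * (q i x : ℝ) = ∑ i, ν i * (q i x : ℝ)) ∧
      (univ.filter fun i => ν' i ≠ 0).card ≤ e + 1 := by
  intro n
  induction n with
  | zero =>
    intro ν hν hc
    exact ⟨ν, hν, rfl, fun _ => rfl, by omega⟩
  | succ n ih =>
    intro ν hν hc
    rcases le_or_gt (univ.filter fun i => ν i ≠ 0).card (e + 1) with hle | hgt
    · exact ⟨ν, hν, rfl, fun _ => rfl, hle⟩
    · obtain ⟨ν', h0, h1, h2, h3⟩ := step_floor q ν hν hgt
      obtain ⟨ν'', g0, g1, g2, g3⟩ := ih ν' h0 (by omega)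
      exact ⟨ν'', g0, g1.trans h1, fun x => (g2 x).trans (h2 x), g3⟩

/-- Caratheodory and rounding down. -/
theorem exists_floor {e : ℕ} {ι : Type} [Fintype ι] (q : ι → Fin e → ℤ) (μ : ι → ℝ)
    (hμ : ∀ i, 0 ≤ μ i) (j : ℕ) (hj : (j : ℝ) + e ≤ ∑ i, μ i) :
    ∃ (c : ι → ℕ) (μ' : ι → ℝ), ∑ i, c i = j ∧ (∀ i, 0 ≤ μ' i) ∧
      ∑ i, μ' i = ∑ i, μ i - j ∧
      ∀ x, ∑ i, μ i * (q i x : ℝ) = ∑ i, (c i : ℝ) * (q i x : ℝ) + ∑ i, μ' i * (q i x : ℝ) := by
  classical
  obtain ⟨ν, h0, h1, h2, h3⟩ := carath_floor q _ μ hμ le_rfl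
  have hfl : j ≤ ∑ i, ⌊ν i⌋₊ := by
    set S : Finset ι := univ.filter fun i => ν i ≠ 0 with hS
    have hR : ∑ i, ν i - ∑ i, (⌊ν i⌋₊ : ℝ) = ∑ i ∈ S, (ν i - ⌊ν i⌋₊) := by
      rw [← Finset.sum_sub_distrib, ← Finset.sum_subset (Finset.subset_univ S)]
      intro i _ hi
      have : ν i = 0 := by
        by_contra h6
        exact hi (by rw [hS, Finset.mem_filter]; exact ⟨Finset.mem_univ _, h6⟩)
      rw [this]; simp
    rcases S.eq_empty_or_nonempty with hE | hne
    · rw [hE, Finset.sum_empty] at hR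
      have hz : ((j : ℕ) : ℝ) ≤ ((∑ i, ⌊ν i⌋₊ : ℕ) : ℝ) := by
        push_cast
        have : (0 : ℝ) ≤ e := Nat.cast_nonneg e
        linarith
      exact_mod_cast hz
    · have hlt : ∑ i ∈ S, (ν i - ⌊ν i⌋₊) < ∑ i ∈ S, (1 : ℝ) :=
        Finset.sum_lt_sum_of_nonempty hne fun i _ => by
          have := Nat.lt_floor_add_one (ν i)
          linarith
      rw [Finset.sum_const, nsmul_eq_mul, mul_one] at hlt
      have hcard : ((S.card : ℕ) : ℝ) ≤ (e : ℝ) + 1 := by exact_mod_cast h3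
      have hz : ((j : ℕ) : ℝ) < ((∑ i, ⌊ν i⌋₊ : ℕ) : ℝ) + 1 := by
        push_cast
        linarith
      have hz' : j < ∑ i, ⌊ν i⌋₊ + 1 := by exact_mod_cast hz
      omega
  obtain ⟨c, hc, hcs⟩ := exists_below_floor (fun i => ⌊ν i⌋₊) j hfl
  refine ⟨c, fun i => ν i - c i, hcs, fun i => ?_, ?_, fun x => ?_⟩
  · have h5 : (c i : ℝ) ≤ (⌊ν i⌋₊ : ℝ) := by exact_mod_cast hc i
    have := Nat.floor_le (h0 i)
    simp only
    linarith
  · rw [Finset.sum_sub_distrib, h1, ← hcs]
    push_cast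
    rfl
  · rw [← h2 x, ← Finset.sum_add_distrib]
    exact Finset.sum_congr rfl fun i _ => by ring

end Pool.Agent.CX
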