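import Pool.Agent.Helper45.CX.Defs
import Pool.Agent.Helper45.CX.Floor

/-!
# Project CX, block B1
-/

namespace Pool.Agent.CX

variable {e r : ℕ}

/-- marginals -/
theorem marg_b1 (X : Dat e r) (μ : X.Sel → ℝ) (q : Fin r) (g : X.I q → ℝ)
    [DecidableEq (X.I q)] :
    ∑ i, (∑ s, if s q = i then μ s else 0) * g i = ∑ s, μ s * g (s q) := by
  simp only [Finset.sum_mul]
  rw [Finset.sum_comm]
  refine Finset.sum_congr rfl fun s _ => ?_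
  rw [Finset.sum_eq_single (s q)]
  · simp only [if_true]
  · intro i _ hi
    rw [if_neg (fun h => hi h.symm), zero_mul]
  · intro h; exact absurd (Finset.mem_univ _) h

theorem qB_symm_b1 (X : Dat e r) (p₁ p₂ : Fin r) (s : X.Sel) (x : Fin e) :
    X.qB p₂ p₁ s x = X.qB p₁ p₂ s x := by
  unfold Dat.qB
  exact Finset.sum_congr rfl fun q _ => by simp only [or_comm]

theorem dec_b1 (X : Dat e r) {ε : ℝ} (hE : X.EE ε) {p₁ p₂ : Fin r} (hp : p₁ ≠ p₂)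
    (h1 : ∀ q, q ≠ p₁ → q ≠ p₂ → ∀ i, X.h q i = 1) (p : Fin r) (hpp : p = p₁ ∨ p = p₂)
    (w : Fin e → ℤ) (k : ℕ) (hwk : w ≠ 0 ∨ k ≠ 0) (a : X.J → ℝ) (b₁ : X.I p₁ → ℝ)
    (b₂ : X.I p₂ → ℝ)
    (μ : X.Sel → ℝ) (ha : ∀ j, 0 ≤ a j) (hb1 : ∀ i, 0 ≤ b₁ i) (hb2 : ∀ i, 0 ≤ b₂ i)
    (hμ : ∀ s, 0 ≤ μ s)
    (hw : ∀ x, (w x : ℝ) = ∑ j, a j * (X.g j x : ℝ) + ∑ i, b₁ i * (X.v p₁ i x : ℝ) +
      ∑ i, b₂ i * (X.v p₂ i x : ℝ) + ∑ s, μ s * (X.qB p₁ p₂ s x : ℝ))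
    (hk1 : ∑ i, b₁ i * (X.h p₁ i : ℝ) = ∑ s, μ s + if p₁ = p then (k : ℝ) else 0)
    (hk2 : ∑ i, b₂ i * (X.h p₂ i : ℝ) = ∑ s, μ s + if p₂ = p then (k : ℝ) else 0) :
    ε ≤ ∑ j, a j + ∑ i, b₁ i + ∑ i, b₂ i := by
  classical
  obtain ⟨B, hB⟩ : ∃ B : ∀ q, X.I q → ℝ,
    B = fun q i => ∑ s, if s q = i then μ s else 0 := ⟨_, rfl⟩
  have hBm : ∀ q (g : X.I q → ℝ), ∑ i, B q i * g i = ∑ s, μ s * g (s q) := by
    intro q g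
    rw [hB]
    exact marg_b1 X μ q g
  have hB0 : ∀ q i, 0 ≤ B q i := by
    intro q i
    rw [hB]
    refine Finset.sum_nonneg fun s _ => ?_
    split_ifs
    · exact hμ s
    · exact le_rfl
  obtain ⟨C, hC⟩ : ∃ C : ∀ q, X.I q → ℝ,
    C = Function.update (Function.update B p₂ b₂) p₁ b₁ := ⟨_, rfl⟩
  have hC1 : C p₁ = b₁ := by rw [hC, Function.update_self]
  have hC2 : C p₂ = b₂ := by rw [hC, Function.update_of_ne hp.symm, Function.update_self]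
  have hC3 : ∀ q, q ≠ p₁ → q ≠ p₂ → C q = B q := fun q h3 h4 => by
    rw [hC, Function.update_of_ne h3, Function.update_of_ne h4]
  have hm2 : p₂ ∈ Finset.univ.erase p₁ := Finset.mem_erase.mpr ⟨hp.symm, Finset.mem_univ _⟩
  have hsplit : ∀ F : Fin r → ℝ, ∑ q, F q =
      F p₁ + (F p₂ + ∑ q ∈ (Finset.univ.erase p₁).erase p₂, F q) :=
    fun F => by
      rw [Finset.add_sum_erase _ F hm2, Finset.add_sum_erase _ F (Finset.mem_univ p₁)]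
  have hq1 : ∀ q ∈ (Finset.univ.erase p₁).erase p₂, q ≠ p₁ := fun q hq =>
    Finset.ne_of_mem_erase (Finset.mem_of_mem_erase hq)
  have hq2 : ∀ q ∈ (Finset.univ.erase p₁).erase p₂, q ≠ p₂ := fun q hq =>
    Finset.ne_of_mem_erase hq
  have key := hE p w k hwk a C (∑ s, μ s) ⟨ha, ?_, ?_, ?_, ?_⟩
  · refine key.trans (le_of_eq ?_)
    unfold Dat.cost
    rw [hsplit, hC1, hC2]
    have e1 : ∑ q ∈ (Finset.univ.erase p₁).erase p₂, ∑ i, C q i = ((r : ℝ) - 2) * ∑ s, μ s := by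
      have e2 : ∀ q ∈ (Finset.univ.erase p₁).erase p₂, ∑ i, C q i = ∑ s, μ s := by
        intro q hq
        rw [hC3 q (hq1 q hq) (hq2 q hq)]
        have := hBm q (fun _ => 1)
        simpa using this
      rw [Finset.sum_congr rfl e2, Finset.sum_const, nsmul_eq_mul]
      have e4 := hsplit (fun _ => (1 : ℝ))
      simp only [Finset.sum_const, Finset.card_univ, Fintype.card_fin, nsmul_eq_mul, mul_one] at e4
      congr 1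
      linarith
    rw [e1]; ring
  · intro q
    by_cases h3 : q = p₁
    · subst h3
      rw [hC1]; exact hb1
    · by_cases h4 : q = p₂
      · subst h4
        rw [hC2]; exact hb2
      · rw [hC3 q h3 h4]; exact hB0 q
  · exact Finset.sum_nonneg fun s _ => hμ s
  · intro x
    show (w x : ℝ) = _
    rw [hsplit, hC1, hC2, hw x]
    have e1 : ∑ q ∈ (Finset.univ.erase p₁).erase p₂, ∑ i, C q i * (X.v q i x : ℝ) =
        ∑ s, μ s * (X.qB p₁ p₂ s x : ℝ) := by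
      have e2 : ∀ q ∈ (Finset.univ.erase p₁).erase p₂, ∑ i, C q i * (X.v q i x : ℝ) =
          ∑ s, μ s * (X.v q (s q) x : ℝ) := by
        intro q hq
        rw [hC3 q (hq1 q hq) (hq2 q hq), hBm q (fun i => (X.v q i x : ℝ))]
      rw [Finset.sum_congr rfl e2, Finset.sum_comm]
      refine Finset.sum_congr rfl fun s _ => ?_
      rw [← Finset.mul_sum]
      congr 1
      unfold Dat.qB
      rw [Int.cast_sum, hsplit]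
      simp only [true_or, or_true, if_true, Int.cast_zero, zero_add]
      refine Finset.sum_congr rfl fun q hq => ?_
      rw [if_neg (not_or.mpr ⟨hq1 q hq, hq2 q hq⟩)]
    rw [e1]; ring
  · intro q
    by_cases h3 : q = p₁
    · subst h3
      rw [hC1, hk1]
    · by_cases h4 : q = p₂
      · subst h4
        rw [hC2, hk2]
      · have h5 : q ≠ p := by
          rcases hpp with h | h
          · rw [h]; exact h3
          · rw [h]; exact h4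
        rw [hC3 q h3 h4, if_neg h5, hBm q (fun i => (X.h q i : ℝ)), add_zero]
        exact Finset.sum_congr rfl fun s _ => by
          rw [h1 q h3 h4 (s q)]; simp

/-- a bad vector has negative height -/
theorem bad_b1 (X : Dat e r) {ε δ : ℝ} (hδ : δ ≤ ε) (hE : X.EE ε) {p₁ p₂ : Fin r} (hp : p₁ ≠ p₂)
    (h1 : ∀ q, q ≠ p₁ → q ≠ p₂ → ∀ i, X.h q i = 1) (hG : ¬ X.GoodB p₁ p₂ δ) :
    ∃ (w : Fin e → ℤ) (h₂ : ℕ) (a : X.J → ℝ) (b₁ : X.I p₁ → ℝ) (b₂ : X.I p₂ → ℝ) (μ : X.Sel → ℝ),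
      1 ≤ h₂ ∧ (∀ j, 0 ≤ a j) ∧ (∀ i, 0 ≤ b₁ i) ∧ (∀ i, 0 ≤ b₂ i) ∧ (∀ s, 0 ≤ μ s) ∧
      (∀ x, (w x : ℝ) = ∑ j, a j * (X.g j x : ℝ) + ∑ i, b₁ i * (X.v p₁ i x : ℝ) +
        ∑ i, b₂ i * (X.v p₂ i x : ℝ) + ∑ s, μ s * (X.qB p₁ p₂ s x : ℝ)) ∧
      ∑ i, b₁ i * (X.h p₁ i : ℝ) = ∑ s, μ s - h₂ ∧
      ∑ i, b₂ i * (X.h p₂ i : ℝ) = ∑ s, μ s ∧
      ∑ j, a j + ∑ i, b₁ i + ∑ i, b₂ i < δ := by
  classical
  unfold Dat.GoodB at hG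
  push Not at hG
  obtain ⟨w, k, hwk, a, α, β, ha, hα, hβ, hw, hk, hlt⟩ := hG
  obtain ⟨b₂, hb₂⟩ : ∃ b₂ : X.I p₂ → ℝ, b₂ = fun i => ∑ s, β i s := ⟨_, rfl⟩
  obtain ⟨μ, hμ⟩ : ∃ μ : X.Sel → ℝ, μ = fun s => ∑ i, β i s * X.h p₂ i := ⟨_, rfl⟩
  have hb0 : ∀ i, 0 ≤ b₂ i := fun i => by
    rw [hb₂]; exact Finset.sum_nonneg fun s _ => hβ i s
  have hμ0 : ∀ s, 0 ≤ μ s := fun s => by
    rw [hμ]; exact Finset.sum_nonneg fun i _ => mul_nonneg (hβ i s) (Nat.cast_nonneg _)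
  have hsw : ∀ F : X.Sel → ℝ, ∑ s, μ s * F s = ∑ i, ∑ s, β i s * (X.h p₂ i * F s) := by
    intro F
    rw [hμ, Finset.sum_comm]
    refine Finset.sum_congr rfl fun s _ => ?_
    rw [Finset.sum_mul]
    exact Finset.sum_congr rfl fun i _ => by ring
  have hsum : ∑ s, μ s = ∑ i, ∑ s, β i s * X.h p₂ i := by
    have := hsw (fun _ => 1)
    simpa using this
  have hsb : ∀ F : X.I p₂ → ℝ, ∑ i, b₂ i * F i = ∑ i, ∑ s, β i s * F i := by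
    intro F
    rw [hb₂]
    exact Finset.sum_congr rfl fun i _ => by rw [Finset.sum_mul]
  have hw' : ∀ x, (w x : ℝ) = ∑ j, a j * (X.g j x : ℝ) + ∑ i, α i * (X.v p₁ i x : ℝ) +
        ∑ i, b₂ i * (X.v p₂ i x : ℝ) + ∑ s, μ s * (X.qB p₁ p₂ s x : ℝ) := by
    intro x
    have e1 : ∑ i, ∑ s, β i s * ((X.v p₂ i x : ℝ) + X.h p₂ i * (X.qB p₁ p₂ s x : ℝ)) =
        ∑ i, ∑ s, β i s * (X.v p₂ i x : ℝ) +
          ∑ i, ∑ s, β i s * (X.h p₂ i * (X.qB p₁ p₂ s x : ℝ)) := by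
      rw [← Finset.sum_add_distrib]
      refine Finset.sum_congr rfl fun i _ => ?_
      rw [← Finset.sum_add_distrib]
      exact Finset.sum_congr rfl fun s _ => by ring
    rw [hw x, e1, hsb (fun i => (X.v p₂ i x : ℝ)), hsw (fun s => (X.qB p₁ p₂ s x : ℝ))]
    ring
  have hk2 : ∑ i, b₂ i * (X.h p₂ i : ℝ) = ∑ s, μ s := by
    rw [hsb (fun i => (X.h p₂ i : ℝ)), hsum]
  have hk1 : ∑ i, α i * (X.h p₁ i : ℝ) = ∑ s, μ s + k := by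
    rw [hsum, hk]; ring
  have hc : ∑ j, a j + ∑ i, α i + ∑ i, b₂ i < δ := by
    refine lt_of_eq_of_lt ?_ hlt
    rw [hb₂]
  rcases le_or_gt 0 k with hk0 | hk0
  · exfalso
    obtain ⟨k', rfl⟩ := Int.eq_ofNat_of_zero_le hk0
    have := dec_b1 X hE hp h1 p₁ (Or.inl rfl) w k' (by
      rcases hwk with h | h
      · exact Or.inl h
      · exact Or.inr (by exact_mod_cast h)) a α b₂ μ ha hα hb0 hμ0 hw' (by
        rw [hk1, if_pos rfl]; push_cast; ring) (by rw [hk2, if_neg hp.symm, add_zero])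
    linarith
  · obtain ⟨h₀, hh₀⟩ := Int.eq_ofNat_of_zero_le (le_of_lt (neg_pos.mpr hk0))
    have hk3 : k = -(h₀ : ℤ) := by omega
    refine ⟨w, h₀, a, α, b₂, μ, by omega, ha, hα, hb0, hμ0, hw', ?_, hk2, hc⟩
    rw [hk1, hk3]; push_cast; ring

theorem goodB (X : Dat e r) {ε : ℝ} (hε : 0 < ε) (hE : X.EE ε) {p₁ p₂ : Fin r} (hp : p₁ ≠ p₂)
    (h1 : ∀ q, q ≠ p₁ → q ≠ p₂ → ∀ i, X.h q i = 1) :
    X.GoodB p₁ p₂ (ε / (2 * e + 3)) ∨ X.GoodB p₂ p₁ (ε / (2 * e + 3)) := by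
  classical
  by_contra hno
  rw [not_or] at hno
  have he0 : (0 : ℝ) < 2 * e + 3 := by positivity
  have hδ : ε / (2 * e + 3) ≤ ε := by
    rw [div_le_iff₀ he0]
    have : (0 : ℝ) ≤ e := Nat.cast_nonneg _
    nlinarith
  obtain ⟨w₂, h₂, a₂, b₁₂, b₂₂, μ₂, hh2, ha2, hb12, hb22, hμ2, hw2, hk12, hk22, hc2⟩ :=
    bad_b1 X hδ hE hp h1 hno.1
  obtain ⟨w₁, h₁, a₁, b₂₁, b₁₁, μ₁, hh1, ha1, hb21, hb11, hμ1, hw1, hk21, hk11, hc1⟩ :=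
    bad_b1 X hδ hE hp.symm (fun q h3 h4 => h1 q h4 h3) hno.2
  -- multipliers
  obtain ⟨m₁, m₂, hm1, hm2, hm12, hne⟩ : ∃ m₁ m₂ : ℕ, e + 1 ≤ m₁ ∧ e + 1 ≤ m₂ ∧
      m₁ + m₂ ≤ 2 * e + 3 ∧ m₁ * h₁ ≠ m₂ * h₂ := by
    by_cases h : (e + 1) * h₁ = (e + 1) * h₂
    · refine ⟨e + 1, e + 2, le_rfl, by omega, by omega, ?_⟩
      rw [h]
      intro h3
      have : (e + 2) * h₂ = (e + 1) * h₂ + h₂ := by ring
      omega
    · exact ⟨e + 1, e + 1, le_rfl, le_rfl, by omega, h⟩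
  obtain ⟨M₁, hM₁⟩ : ∃ M₁ : ℕ, M₁ = m₁ * h₁ := ⟨_, rfl⟩
  obtain ⟨M₂, hM₂⟩ : ∃ M₂ : ℕ, M₂ = m₂ * h₂ := ⟨_, rfl⟩
  rw [← hM₁, ← hM₂] at hne
  have hM1 : e + 1 ≤ M₁ := by rw [hM₁]; nlinarith
  have hM2 : e + 1 ≤ M₂ := by rw [hM₂]; nlinarith
  have hM1r : (M₁ : ℝ) = m₁ * h₁ := by rw [hM₁]; push_cast; ring
  have hM2r : (M₂ : ℝ) = m₂ * h₂ := by rw [hM₂]; push_cast; ring
  have hm1' : (0 : ℝ) ≤ m₁ := Nat.cast_nonneg _
  have hm2' : (0 : ℝ) ≤ m₂ := Nat.cast_nonneg _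
  -- the combined data
  obtain ⟨a, ha⟩ : ∃ a : X.J → ℝ, a = fun j => m₁ * a₁ j + m₂ * a₂ j := ⟨_, rfl⟩
  obtain ⟨b₁, hb₁⟩ : ∃ b : X.I p₁ → ℝ, b = fun i => m₁ * b₁₁ i + m₂ * b₁₂ i := ⟨_, rfl⟩
  obtain ⟨b₂, hb₂⟩ : ∃ b : X.I p₂ → ℝ, b = fun i => m₁ * b₂₁ i + m₂ * b₂₂ i := ⟨_, rfl⟩
  obtain ⟨μ, hμ⟩ : ∃ μ : X.Sel → ℝ, μ = fun s => m₁ * μ₁ s + m₂ * μ₂ s := ⟨_, rfl⟩
  have ha0 : ∀ j, 0 ≤ a j := fun j => by
    rw [ha]; exact add_nonneg (mul_nonneg hm1' (ha1 j)) (mul_nonneg hm2' (ha2 j))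
  have hb10 : ∀ j, 0 ≤ b₁ j := fun j => by
    rw [hb₁]; exact add_nonneg (mul_nonneg hm1' (hb11 j)) (mul_nonneg hm2' (hb12 j))
  have hb20 : ∀ j, 0 ≤ b₂ j := fun j => by
    rw [hb₂]; exact add_nonneg (mul_nonneg hm1' (hb21 j)) (mul_nonneg hm2' (hb22 j))
  have hμ0 : ∀ j, 0 ≤ μ j := fun j => by
    rw [hμ]; exact add_nonneg (mul_nonneg hm1' (hμ1 j)) (mul_nonneg hm2' (hμ2 j))
  have hlin : ∀ {κ : Type} [Fintype κ] (f g F : κ → ℝ),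
      ∑ i, (m₁ * f i + m₂ * g i) * F i = m₁ * ∑ i, f i * F i + m₂ * ∑ i, g i * F i := by
    intro κ _ f g F
    rw [Finset.mul_sum, Finset.mul_sum, ← Finset.sum_add_distrib]
    exact Finset.sum_congr rfl fun i _ => by ring
  have hlin1 : ∀ {κ : Type} [Fintype κ] (f g : κ → ℝ),
      ∑ i, (m₁ * f i + m₂ * g i) = m₁ * ∑ i, f i + m₂ * ∑ i, g i := by
    intro κ _ f g
    rw [Finset.mul_sum, Finset.mul_sum, ← Finset.sum_add_distrib]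
  have hsμ : ∑ s, μ s = m₁ * ∑ s, μ₁ s + m₂ * ∑ s, μ₂ s := by rw [hμ]; exact hlin1 _ _
  have hk1 : ∑ i, b₁ i * (X.h p₁ i : ℝ) = ∑ s, μ s - M₂ := by
    rw [hb₁, hlin, hk11, hk12, hsμ, hM2r]; ring
  have hk2 : ∑ i, b₂ i * (X.h p₂ i : ℝ) = ∑ s, μ s - M₁ := by
    rw [hb₂, hlin, hk21, hk22, hsμ, hM1r]; ring
  have hR : (M₁ : ℝ) + M₂ ≤ ∑ s, μ s := by
    have h3 : (h₁ : ℝ) ≤ ∑ s, μ₁ s := by
      have : 0 ≤ ∑ i, b₂₁ i * (X.h p₂ i : ℝ) :=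
        Finset.sum_nonneg fun i _ => mul_nonneg (hb21 i) (Nat.cast_nonneg _)
      linarith
    have h4 : (h₂ : ℝ) ≤ ∑ s, μ₂ s := by
      have : 0 ≤ ∑ i, b₁₂ i * (X.h p₁ i : ℝ) :=
        Finset.sum_nonneg fun i _ => mul_nonneg (hb12 i) (Nat.cast_nonneg _)
      linarith
    rw [hsμ, hM1r, hM2r]
    have := mul_le_mul_of_nonneg_left h3 hm1'
    have := mul_le_mul_of_nonneg_left h4 hm2'
    linarith
  have hw : ∀ x, (m₁ * (w₁ x : ℝ) + m₂ * (w₂ x : ℝ)) = ∑ j, a j * (X.g j x : ℝ) +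
      ∑ i, b₁ i * (X.v p₁ i x : ℝ) +
        ∑ i, b₂ i * (X.v p₂ i x : ℝ) + ∑ s, μ s * (X.qB p₁ p₂ s x : ℝ) := by
    intro x
    have h3 : ∑ s, μ₁ s * (X.qB p₂ p₁ s x : ℝ) = ∑ s, μ₁ s * (X.qB p₁ p₂ s x : ℝ) :=
      Finset.sum_congr rfl fun s _ => by rw [qB_symm_b1]
    rw [hw1 x, hw2 x, ha, hb₁, hb₂, hμ, hlin, hlin, hlin, hlin, h3]
    ring
  have hcost : ∑ j, a j + ∑ i, b₁ i + ∑ i, b₂ i < ε := by
    rw [ha, hb₁, hb₂, hlin1, hlin1, hlin1]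
    have hm1p : (0 : ℝ) < m₁ := by
      have : 0 < m₁ := by omega
      exact_mod_cast this
    have h3 : m₁ * (∑ j, a₁ j + ∑ i, b₂₁ i + ∑ i, b₁₁ i) < m₁ * (ε / (2 * e + 3)) :=
      mul_lt_mul_of_pos_left hc1 hm1p
    have h4 : m₂ * (∑ j, a₂ j + ∑ i, b₁₂ i + ∑ i, b₂₂ i) ≤ m₂ * (ε / (2 * e + 3)) :=
      mul_le_mul_of_nonneg_left hc2.le hm2'
    have h5 : ((m₁ : ℝ) + m₂) * (ε / (2 * e + 3)) ≤ ε := by
      have h6 : ((m₁ : ℝ) + m₂) ≤ 2 * e + 3 := by exact_mod_cast hm12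
      have h7 : ((m₁ : ℝ) + m₂) * (ε / (2 * e + 3)) ≤ (2 * e + 3) * (ε / (2 * e + 3)) :=
        mul_le_mul_of_nonneg_right h6 (by positivity)
      have h8 : (2 * (e : ℝ) + 3) * (ε / (2 * e + 3)) = ε := by field_simp
      linarith
    nlinarith
  -- rounding
  obtain ⟨j, hj⟩ : ∃ j : ℕ, j = max M₁ M₂ := ⟨_, rfl⟩
  have hj2 : (j : ℝ) + e ≤ ∑ s, μ s := by
    have h3 : j + e ≤ M₁ + M₂ := by
      rw [hj]; omega
    have h4 : (j : ℝ) + e ≤ M₁ + M₂ := by exact_mod_cast h3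
    linarith
  obtain ⟨c, μ', hc, hμ'0, hμ's, hμ'v⟩ := exists_floor (fun s => X.qB p₁ p₂ s) μ hμ0 j hj2
  have hwv : ∀ x, (((fun x => (m₁ : ℤ) * w₁ x + m₂ * w₂ x - ∑ s, (c s : ℤ) * X.qB p₁ p₂ s x) x
      : ℤ) : ℝ) = ∑ j, a j * (X.g j x : ℝ) + ∑ i, b₁ i * (X.v p₁ i x : ℝ) +
        ∑ i, b₂ i * (X.v p₂ i x : ℝ) + ∑ s, μ' s * (X.qB p₁ p₂ s x : ℝ) := by
    intro x
    push_cast
    have := hμ'v x
    have := hw x
    linarith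
  rcases lt_or_gt_of_ne hne with hlt | hlt
  · -- height over `p₂`
    have hjM : j = M₂ := by rw [hj]; exact max_eq_right hlt.le
    have := dec_b1 X hE hp h1 p₂ (Or.inr rfl) _ (M₂ - M₁) (Or.inr (by omega)) a b₁ b₂ μ' ha0 hb10
      hb20 hμ'0 hwv (by rw [hk1, hμ's, hjM, if_neg hp, add_zero])
      (by rw [hk2, hμ's, hjM, if_pos rfl, Nat.cast_sub hlt.le]; ring)
    linarith
  · have hjM : j = M₁ := by rw [hj]; exact max_eq_left hlt.le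
    have := dec_b1 X hE hp h1 p₁ (Or.inl rfl) _ (M₁ - M₂) (Or.inr (by omega)) a b₁ b₂ μ' ha0 hb10
      hb20 hμ'0 hwv (by rw [hk1, hμ's, hjM, if_pos rfl, Nat.cast_sub hlt.le]; ring)
      (by rw [hk2, hμ's, hjM, if_neg hp.symm, add_zero])
    linarith

end Pool.Agent.CX
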