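import Pool.Agent.Helper45.CX.Defs
import Pool.Agent.Helper45.CX.Floor

/-!
# Project CX, block C1
-/

namespace Pool.Agent.CX

variable {e r : ℕ}

/-- the version with supports -/
theorem exists_floorP_c1 {ι : Type} [Fintype ι] (P : ι → Prop) [DecidablePred P] (q : ι → Fin e → ℤ) (μ : ι → ℝ)
    (hμ : ∀ i, 0 ≤ μ i) (j : ℕ) (hj : (j : ℝ) + e ≤ ∑ i : {i // P i}, μ i) :
    ∃ (c : ι → ℕ) (μ' : ι → ℝ), ∑ i, c i = j ∧ (∀ i, 0 ≤ μ' i) ∧ (∀ i, ¬ P i → μ' i = μ i) ∧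
      ∑ i, μ' i = ∑ i, μ i - j ∧
      ∀ x, ∑ i, μ i * (q i x : ℝ) = ∑ i, (c i : ℝ) * (q i x : ℝ) + ∑ i, μ' i * (q i x : ℝ) := by
  classical
  obtain ⟨c, μ', h1, h2, h3, h4⟩ := exists_floor (fun i : {i // P i} => q i) (fun i => μ i)
    (fun i => hμ i) j hj
  have key : ∀ F : ι → ℝ, ∑ i, F i = ∑ i : {i // P i}, F i + ∑ i : {i // ¬ P i}, F i :=
    fun F => (Fintype.sum_subtype_add_sum_subtype P F).symm
  have keyN : ∀ F : ι → ℕ, ∑ i, F i = ∑ i : {i // P i}, F i + ∑ i : {i // ¬ P i}, F i :=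
    fun F => (Fintype.sum_subtype_add_sum_subtype P F).symm
  refine ⟨fun i => if h : P i then c ⟨i, h⟩ else 0, fun i => if h : P i then μ' ⟨i, h⟩ else μ i,
    ?_, ?_, ?_, ?_, ?_⟩
  · rw [keyN]
    have e1 : ∑ i : {i // P i}, (if h : P i then c ⟨i, h⟩ else 0) = ∑ i, c i :=
      Finset.sum_congr rfl fun i _ => by rw [dif_pos i.2]
    have e2 : ∑ i : {i // ¬ P i}, (if h : P i then c ⟨i, h⟩ else 0) = 0 :=
      Finset.sum_eq_zero fun i _ => by rw [dif_neg i.2]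
    rw [e1, e2, h1, add_zero]
  · intro i
    by_cases h : P i
    · simp only [h, dif_pos]; exact h2 _
    · simp only [h, dif_neg, not_false_iff]; exact hμ i
  · intro i h
    simp only [h, dif_neg, not_false_iff]
  · rw [key, key μ]
    have e1 : ∑ i : {i // P i}, (if h : P i then μ' ⟨i, h⟩ else μ i) = ∑ i, μ' i :=
      Finset.sum_congr rfl fun i _ => by rw [dif_pos i.2]
    have e2 : ∑ i : {i // ¬ P i}, (if h : P i then μ' ⟨i, h⟩ else μ i) =
        ∑ i : {i // ¬ P i}, μ i :=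
      Finset.sum_congr rfl fun i _ => by rw [dif_neg i.2]
    rw [e1, e2, h3]; ring
  · intro x
    rw [key, key (fun i => (((if h : P i then c ⟨i, h⟩ else 0 : ℕ)) : ℝ) * (q i x : ℝ)),
      key (fun i => (if h : P i then μ' ⟨i, h⟩ else μ i) * (q i x : ℝ)), h4 x]
    have e1 : ∑ i : {i // P i}, (if h : P i then μ' ⟨i, h⟩ else μ i) * (q i x : ℝ) =
        ∑ i, μ' i * (q i x : ℝ) :=
      Finset.sum_congr rfl fun i _ => by rw [dif_pos i.2]
    have e2 : ∑ i : {i // ¬ P i}, (if h : P i then μ' ⟨i, h⟩ else μ i) * (q i x : ℝ) =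
        ∑ i : {i // ¬ P i}, μ i * (q i x : ℝ) :=
      Finset.sum_congr rfl fun i _ => by rw [dif_neg i.2]
    have e3 : ∑ i : {i // P i}, (((if h : P i then c ⟨i, h⟩ else 0 : ℕ)) : ℝ) * (q i x : ℝ) =
        ∑ i, (c i : ℝ) * (q i x : ℝ) :=
      Finset.sum_congr rfl fun i _ => by rw [dif_pos i.2]
    have e4 : ∑ i : {i // ¬ P i}, (((if h : P i then c ⟨i, h⟩ else 0 : ℕ)) : ℝ) * (q i x : ℝ) =
        0 :=
      Finset.sum_eq_zero fun i _ => by rw [dif_neg i.2]; simp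
    rw [e1, e2, e3, e4]; ring

/-- marginals -/
theorem marg_c1 (X : Dat e r) (μ : X.Sel → ℝ) (q : Fin r) (f g : X.I q → ℝ) [DecidableEq (X.I q)] :
    ∑ i, (∑ s, if s q = i then μ s * f i else 0) * g i = ∑ s, μ s * (f (s q) * g (s q)) := by
  simp only [Finset.sum_mul]
  rw [Finset.sum_comm]
  refine Finset.sum_congr rfl fun s _ => ?_
  rw [Finset.sum_eq_single (s q)]
  · simp only [if_true]; ring
  · intro i _ hi
    rw [if_neg (fun h => hi h.symm), zero_mul]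
  · intro h; exact absurd (Finset.mem_univ _) h

theorem dec_c1 (X : Dat e r) {ε : ℝ} (hE : X.EE ε) (p₀ : Fin r)
    (h2 : ∀ q, q ≠ p₀ → ∀ i, X.h q i = 1 ∨ X.h q i = 2)
    (w : Fin e → ℤ) (k : ℕ) (hwk : w ≠ 0 ∨ k ≠ 0) (a : X.J → ℝ) (b₀ : X.I p₀ → ℝ)
    (μ : X.Sel → ℝ) (ha : ∀ j, 0 ≤ a j) (hb : ∀ i, 0 ≤ b₀ i) (hμ : ∀ s, 0 ≤ μ s)
    (hw : ∀ x, (w x : ℝ) = ∑ j, a j * (X.g j x : ℝ) + ∑ i, b₀ i * (X.v p₀ i x : ℝ) +
      ∑ s, μ s * (X.qC p₀ s x : ℝ))
    (hk : ∑ i, b₀ i * (X.h p₀ i : ℝ) = 2 * ∑ s, μ s + k) :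
    ε ≤ ∑ j, a j + ∑ i, b₀ i + ∑ s, μ s * (2 - (X.nC p₀ s : ℝ)) := by
  classical
  obtain ⟨B, hB⟩ : ∃ B : ∀ q, X.I q → ℝ,
    B = fun q i => ∑ s, if s q = i then μ s * (2 / (X.h q i : ℝ)) else 0 := ⟨_, rfl⟩
  have hBm : ∀ q (g : X.I q → ℝ), ∑ i, B q i * g i = ∑ s, μ s * (2 / (X.h q (s q) : ℝ) * g (s q)) := by
    intro q g
    rw [hB]
    exact marg_c1 X μ q (fun i => 2 / (X.h q i : ℝ)) g
  have hB0 : ∀ q i, 0 ≤ B q i := by
    intro q i
    rw [hB]
    refine Finset.sum_nonneg fun s _ => ?_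
    split_ifs
    · exact mul_nonneg (hμ s) (by positivity)
    · exact le_rfl
  have hne : ∀ q i, (X.h q i : ℝ) ≠ 0 := fun q i => by
    have := X.h_pos q i
    positivity
  have hsplit : ∀ F : Fin r → ℝ, ∑ q, F q = F p₀ + ∑ q ∈ Finset.univ.erase p₀, F q :=
    fun F => (Finset.add_sum_erase _ F (Finset.mem_univ p₀)).symm
  have key := hE p₀ w k hwk a (Function.update B p₀ b₀) (2 * ∑ s, μ s) ⟨ha, ?_, ?_, ?_, ?_⟩
  · refine key.trans (le_of_eq ?_)
    unfold Dat.cost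
    rw [hsplit, Function.update_self]
    have e1 : ∑ q ∈ Finset.univ.erase p₀, ∑ i, Function.update B p₀ b₀ q i =
        ∑ s, μ s * (2 * ((r : ℝ) - 1) - (X.nC p₀ s : ℝ)) := by
      have e2 : ∀ q ∈ Finset.univ.erase p₀, ∑ i, Function.update B p₀ b₀ q i =
          ∑ s, μ s * (2 / (X.h q (s q) : ℝ)) := by
        intro q hq
        rw [Function.update_of_ne (Finset.ne_of_mem_erase hq)]
        have := hBm q (fun _ => 1)
        simpa using this
      rw [Finset.sum_congr rfl e2, Finset.sum_comm]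
      refine Finset.sum_congr rfl fun s _ => ?_
      rw [← Finset.mul_sum]
      congr 1
      have e3 : ∀ q ∈ Finset.univ.erase p₀, 2 / (X.h q (s q) : ℝ) =
          2 - if X.h q (s q) = 2 then 1 else 0 := by
        intro q hq
        rcases h2 q (Finset.ne_of_mem_erase hq) (s q) with h | h
        · rw [h]; norm_num
        · rw [h]; norm_num
      rw [Finset.sum_congr rfl e3, Finset.sum_sub_distrib]
      have e4 : ∑ q ∈ Finset.univ.erase p₀, (2 : ℝ) = 2 * ((r : ℝ) - 1) := by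
        have h5 := hsplit (fun _ => (2 : ℝ))
        simp only [Finset.sum_const, Finset.card_univ, Fintype.card_fin, nsmul_eq_mul] at h5 ⊢
        linarith
      have e5 : ∑ q ∈ Finset.univ.erase p₀, (if X.h q (s q) = 2 then (1 : ℝ) else 0) =
          (X.nC p₀ s : ℝ) := by
        unfold Dat.nC
        rw [Finset.sum_ite, Finset.sum_const_zero, add_zero, Finset.sum_const, nsmul_eq_mul, mul_one]
        congr 2
        ext q
        simp
      rw [e4, e5]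
    rw [e1]
    have e6 : ∑ s, μ s * (2 * ((r : ℝ) - 1) - (X.nC p₀ s : ℝ)) + (2 - (r : ℝ)) * (2 * ∑ s, μ s) =
        ∑ s, μ s * (2 - (X.nC p₀ s : ℝ)) := by
      rw [← mul_assoc, Finset.mul_sum, ← Finset.sum_add_distrib]
      exact Finset.sum_congr rfl fun s _ => by ring
    rw [← e6]; ring
  · intro q
    by_cases hq : q = p₀
    · subst hq
      rw [Function.update_self]; exact hb
    · rw [Function.update_of_ne hq]; exact hB0 q
  · exact mul_nonneg zero_le_two (Finset.sum_nonneg fun s _ => hμ s)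
  · intro x
    show (w x : ℝ) = _
    rw [hsplit, Function.update_self, hw x]
    have e1 : ∑ q ∈ Finset.univ.erase p₀, ∑ i, Function.update B p₀ b₀ q i * (X.v q i x : ℝ) =
        ∑ s, μ s * (X.qC p₀ s x : ℝ) := by
      have e2 : ∀ q ∈ Finset.univ.erase p₀, ∑ i, Function.update B p₀ b₀ q i * (X.v q i x : ℝ) =
          ∑ s, μ s * (((2 / X.h q (s q) : ℕ) : ℝ) * (X.v q (s q) x : ℝ)) := by
        intro q hq
        rw [Function.update_of_ne (Finset.ne_of_mem_erase hq), hBm q (fun i => (X.v q i x : ℝ))]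
        refine Finset.sum_congr rfl fun s _ => ?_
        rcases h2 q (Finset.ne_of_mem_erase hq) (s q) with h | h
        · rw [h]; norm_num
        · rw [h]; norm_num
      rw [Finset.sum_congr rfl e2, Finset.sum_comm]
      refine Finset.sum_congr rfl fun s _ => ?_
      rw [← Finset.mul_sum]
      congr 1
      unfold Dat.qC
      push_cast
      rw [hsplit]
      simp only [if_true, zero_add]
      refine Finset.sum_congr rfl fun q hq => ?_
      rw [if_neg (Finset.ne_of_mem_erase hq)]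
      rcases h2 q (Finset.ne_of_mem_erase hq) (s q) with h | h
      · rw [h]; norm_num
      · rw [h]; norm_num
    rw [e1]; ring
  · intro q
    by_cases hq : q = p₀
    · subst hq
      rw [Function.update_self, hk, if_pos rfl]
    · rw [Function.update_of_ne hq, if_neg hq, hBm q (fun i => (X.h q i : ℝ)), Finset.mul_sum,
        add_zero]
      exact Finset.sum_congr rfl fun s _ => by
        have := hne q (s q)
        field_simp

theorem goodC (X : Dat e r) {ε : ℝ} (hε : 0 < ε) (hε1 : ε ≤ 1) (hE : X.EE ε) (p₀ : Fin r)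
    (h2 : ∀ q, q ≠ p₀ → ∀ i, X.h q i = 1 ∨ X.h q i = 2) (hn2 : ∀ s, X.nC p₀ s ≤ 2) :
    X.GoodC p₀ (ε / (2 * e + 4)) := by
  classical
  intro w k hwk a α β ha hα hβ hw hk
  by_contra hlt
  rw [not_le] at hlt
  obtain ⟨b₀, hb₀⟩ : ∃ b₀ : X.I p₀ → ℝ, b₀ = fun i => α i + ∑ s, β i s := ⟨_, rfl⟩
  obtain ⟨μ, hμ⟩ : ∃ μ : X.Sel → ℝ, μ = fun s => ∑ i, β i s * X.h p₀ i := ⟨_, rfl⟩
  have hb0 : ∀ i, 0 ≤ b₀ i := fun i => by
    rw [hb₀]; exact add_nonneg (hα i) (Finset.sum_nonneg fun s _ => hβ i s)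
  have hμ0 : ∀ s, 0 ≤ μ s := fun s => by
    rw [hμ]; exact Finset.sum_nonneg fun i _ => mul_nonneg (hβ i s) (Nat.cast_nonneg _)
  -- the sums
  have hsw : ∀ F : X.Sel → ℝ, ∑ s, μ s * F s = ∑ i, ∑ s, β i s * (X.h p₀ i * F s) := by
    intro F
    rw [hμ, Finset.sum_comm]
    refine Finset.sum_congr rfl fun s _ => ?_
    rw [Finset.sum_mul]
    exact Finset.sum_congr rfl fun i _ => by ring
  have hsum : ∑ s, μ s = ∑ i, ∑ s, β i s * X.h p₀ i := by
    have := hsw (fun _ => 1)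
    simpa using this
  have hsb : ∀ F : X.I p₀ → ℝ, ∑ i, b₀ i * F i = ∑ i, α i * F i + ∑ i, ∑ s, β i s * F i := by
    intro F
    rw [hb₀, ← Finset.sum_add_distrib]
    exact Finset.sum_congr rfl fun i _ => by rw [add_mul, Finset.sum_mul]
  have hw' : ∀ x, (w x : ℝ) = ∑ j, a j * (X.g j x : ℝ) + ∑ i, b₀ i * (X.v p₀ i x : ℝ) +
      ∑ s, μ s * (X.qC p₀ s x : ℝ) := by
    intro x
    have e1 : ∑ i, ∑ s, β i s * ((X.v p₀ i x : ℝ) + X.h p₀ i * (X.qC p₀ s x : ℝ)) =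
        ∑ i, ∑ s, β i s * (X.v p₀ i x : ℝ) + ∑ i, ∑ s, β i s * (X.h p₀ i * (X.qC p₀ s x : ℝ)) := by
      rw [← Finset.sum_add_distrib]
      refine Finset.sum_congr rfl fun i _ => ?_
      rw [← Finset.sum_add_distrib]
      exact Finset.sum_congr rfl fun s _ => by ring
    rw [hw x, e1, hsb (fun i => (X.v p₀ i x : ℝ)), hsw (fun s => (X.qC p₀ s x : ℝ))]
    ring
  have hk' : ∑ i, b₀ i * (X.h p₀ i : ℝ) = 2 * ∑ s, μ s + k := by
    rw [hsb (fun i => (X.h p₀ i : ℝ)), hsum, hk]; ring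
  have hc' : ∑ j, a j + ∑ i, b₀ i + ∑ s, μ s * (2 - (X.nC p₀ s : ℝ)) < ε / (2 * e + 4) := by
    refine lt_of_eq_of_lt ?_ hlt
    have e1 : ∑ i, ∑ s, β i s * (1 + X.h p₀ i * (2 - (X.nC p₀ s : ℝ))) =
        ∑ i, ∑ s, β i s * 1 + ∑ i, ∑ s, β i s * (X.h p₀ i * (2 - (X.nC p₀ s : ℝ))) := by
      rw [← Finset.sum_add_distrib]
      refine Finset.sum_congr rfl fun i _ => ?_
      rw [← Finset.sum_add_distrib]
      exact Finset.sum_congr rfl fun s _ => by ring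
    rw [e1]
    have e2 := hsb (fun _ => 1)
    have e3 := hsw (fun s => 2 - (X.nC p₀ s : ℝ))
    simp only [mul_one] at e2
    simp only [mul_one]
    rw [e2, e3]; ring
  have he0 : (0 : ℝ) < 2 * e + 4 := by positivity
  have hκ : ∀ s, (0 : ℝ) ≤ 2 - (X.nC p₀ s : ℝ) := fun s => by
    have : (X.nC p₀ s : ℝ) ≤ 2 := by exact_mod_cast hn2 s
    linarith
  have ha0 : 0 ≤ ∑ j, a j := Finset.sum_nonneg fun j _ => ha j
  have hbs0 : 0 ≤ ∑ i, b₀ i := Finset.sum_nonneg fun j _ => hb0 j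
  have hμs0 : 0 ≤ ∑ s, μ s * (2 - (X.nC p₀ s : ℝ)) :=
    Finset.sum_nonneg fun s _ => mul_nonneg (hμ0 s) (hκ s)
  rcases le_or_gt 0 k with hk0 | hk0
  · obtain ⟨k', rfl⟩ := Int.eq_ofNat_of_zero_le hk0
    have := dec_c1 X hE p₀ h2 w k' (by
      rcases hwk with h | h
      · exact Or.inl h
      · exact Or.inr (by exact_mod_cast h)) a b₀ μ ha hb0 hμ0 hw' (by
        rw [hk']; push_cast; ring)
    have h3 : ε / (2 * e + 4) ≤ ε := by
      rw [div_le_iff₀ he0]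
      nlinarith
    linarith
  · obtain ⟨h₀, hh₀⟩ := Int.eq_ofNat_of_zero_le (le_of_lt (neg_pos.mpr hk0))
    have hk1 : k = -(h₀ : ℤ) := by omega
    have hh1 : 1 ≤ h₀ := by omega
    obtain ⟨K, hK⟩ : ∃ K : ℕ, K = e + 2 := ⟨_, rfl⟩
    have hKr : (K : ℝ) = e + 2 := by rw [hK]; push_cast; ring
    have hK0 : (0 : ℝ) < K := by rw [hKr]; positivity
    -- total mass
    have hmass : (h₀ : ℝ) ≤ ∑ s, μ s := by
      have h4 : (0 : ℝ) ≤ ∑ i, α i * X.h p₀ i :=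
        Finset.sum_nonneg fun i _ => mul_nonneg (hα i) (Nat.cast_nonneg _)
      have h5 : ((k : ℤ) : ℝ) = -(h₀ : ℝ) := by rw [hk1]; push_cast; ring
      rw [hsum]; linarith
    have hcm : 2 * (K : ℝ) * (∑ j, a j + ∑ i, b₀ i + ∑ s, μ s * (2 - (X.nC p₀ s : ℝ))) < ε := by
      have h6 := mul_lt_mul_of_pos_left hc' (show (0 : ℝ) < 2 * K by positivity)
      have h7 : 2 * (K : ℝ) * (ε / (2 * e + 4)) = ε := by
        rw [hKr]; field_simp; ring
      linarith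
    -- the masses of the selections with κ ≥ 1
    have hsmall : ∑ s : {s : X.Sel // ¬ X.nC p₀ s = 2}, 2 * (K : ℝ) * μ s < 1 := by
      have h8 : ∑ s : {s : X.Sel // ¬ X.nC p₀ s = 2}, 2 * (K : ℝ) * μ s ≤
          ∑ s : {s : X.Sel // ¬ X.nC p₀ s = 2}, 2 * (K : ℝ) * (μ s * (2 - (X.nC p₀ s : ℝ))) := by
        refine Finset.sum_le_sum fun s _ => ?_
        have h9 : X.nC p₀ s ≤ 1 := by
          have := hn2 s.1
          have := s.2
          omega
        have h10 : (X.nC p₀ s : ℝ) ≤ 1 := by exact_mod_cast h9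
        have h11 := hμ0 s.1
        have h12 : μ s.1 * 1 ≤ μ s.1 * (2 - (X.nC p₀ s : ℝ)) :=
          mul_le_mul_of_nonneg_left (by linarith) h11
        rw [mul_one] at h12
        exact mul_le_mul_of_nonneg_left h12 (by positivity)
      have h13 := Fintype.sum_subtype_add_sum_subtype (fun s : X.Sel => X.nC p₀ s = 2)
        (fun s => 2 * (K : ℝ) * (μ s * (2 - (X.nC p₀ s : ℝ))))
      have h14 : 0 ≤ ∑ s : {s : X.Sel // X.nC p₀ s = 2},
          2 * (K : ℝ) * (μ s * (2 - (X.nC p₀ s : ℝ))) :=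
        Finset.sum_nonneg fun s _ => mul_nonneg (by positivity) (mul_nonneg (hμ0 _) (hκ _))
      have h15 : ∑ s, 2 * (K : ℝ) * (μ s * (2 - (X.nC p₀ s : ℝ))) =
          2 * (K : ℝ) * ∑ s, μ s * (2 - (X.nC p₀ s : ℝ)) := by rw [Finset.mul_sum]
      have h16 : 0 ≤ 2 * (K : ℝ) * (∑ j, a j + ∑ i, b₀ i) := by positivity
      nlinarith
    have hbig : ((K * h₀ + 1 : ℕ) : ℝ) + e ≤ ∑ s : {s : X.Sel // X.nC p₀ s = 2}, 2 * (K : ℝ) * μ s := by
      have h13 := Fintype.sum_subtype_add_sum_subtype (fun s : X.Sel => X.nC p₀ s = 2)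
        (fun s => 2 * (K : ℝ) * μ s)
      have h15 : ∑ s, 2 * (K : ℝ) * μ s = 2 * (K : ℝ) * ∑ s, μ s := by rw [Finset.mul_sum]
      have h16 : 2 * (K : ℝ) * h₀ ≤ 2 * (K : ℝ) * ∑ s, μ s :=
        mul_le_mul_of_nonneg_left hmass (by positivity)
      have h17 : (1 : ℝ) ≤ h₀ := by exact_mod_cast hh1
      have h18 : (K : ℝ) ≤ K * h₀ := by nlinarith
      push_cast
      linarith
    obtain ⟨c, μ', hc1, hμ1, hμ2, hμ3, hμ4⟩ := exists_floorP_c1 (fun s : X.Sel => X.nC p₀ s = 2)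
      (fun s => X.qC p₀ s) (fun s => 2 * (K : ℝ) * μ s)
      (fun s => mul_nonneg (by positivity) (hμ0 s)) (K * h₀ + 1) hbig
    have hfin := dec_c1 X hE p₀ h2
      (fun x => 2 * (K : ℤ) * w x - ∑ s, (c s : ℤ) * X.qC p₀ s x) 2 (Or.inr two_ne_zero)
      (fun j => 2 * (K : ℝ) * a j) (fun i => 2 * (K : ℝ) * b₀ i) μ'
      (fun j => mul_nonneg (by positivity) (ha j)) (fun i => mul_nonneg (by positivity) (hb0 i))
      hμ1 (by
        intro x
        push_cast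
        rw [hw' x]
        have h19 := hμ4 x
        have h20 : ∑ s, 2 * (K : ℝ) * μ s * (X.qC p₀ s x : ℝ) =
            2 * (K : ℝ) * ∑ s, μ s * (X.qC p₀ s x : ℝ) := by
          rw [Finset.mul_sum]; exact Finset.sum_congr rfl fun s _ => by ring
        have h21 : ∑ j, 2 * (K : ℝ) * a j * (X.g j x : ℝ) =
            2 * (K : ℝ) * ∑ j, a j * (X.g j x : ℝ) := by
          rw [Finset.mul_sum]; exact Finset.sum_congr rfl fun s _ => by ring
        have h22 : ∑ i, 2 * (K : ℝ) * b₀ i * (X.v p₀ i x : ℝ) =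
            2 * (K : ℝ) * ∑ i, b₀ i * (X.v p₀ i x : ℝ) := by
          rw [Finset.mul_sum]; exact Finset.sum_congr rfl fun s _ => by ring
        rw [h21, h22]
        rw [h20] at h19
        linarith) (by
        have h22 : ∑ i, 2 * (K : ℝ) * b₀ i * (X.h p₀ i : ℝ) =
            2 * (K : ℝ) * ∑ i, b₀ i * (X.h p₀ i : ℝ) := by
          rw [Finset.mul_sum]; exact Finset.sum_congr rfl fun s _ => by ring
        have h23 : ∑ s, 2 * (K : ℝ) * μ s = 2 * (K : ℝ) * ∑ s, μ s := by rw [Finset.mul_sum]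
        rw [h22, hk', hμ3, h23, hk1]
        push_cast
        ring)
    have h24 : ∑ j, 2 * (K : ℝ) * a j = 2 * (K : ℝ) * ∑ j, a j := by rw [Finset.mul_sum]
    have h25 : ∑ j, 2 * (K : ℝ) * b₀ j = 2 * (K : ℝ) * ∑ j, b₀ j := by rw [Finset.mul_sum]
    have h26 : ∑ s, μ' s * (2 - (X.nC p₀ s : ℝ)) =
        2 * (K : ℝ) * ∑ s, μ s * (2 - (X.nC p₀ s : ℝ)) := by
      rw [Finset.mul_sum]
      refine Finset.sum_congr rfl fun s _ => ?_
      by_cases h : X.nC p₀ s = 2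
      · rw [h]; push_cast; ring
      · rw [hμ2 s h]; ring
    rw [h24, h25, h26] at hfin
    linarith

end Pool.Agent.CX
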