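import Pool.Agent.Helper45.CX.Defs

/-!
# Project CX, block K: `κ(s) ≥ 0`, and `κ(s) > 0` if `b(s) ≠ 0`
-/

namespace Pool.Agent.CX

variable {e r : ℕ}

private lemma sum_ite54K (X : Dat e r) (s : X.Sel) (f g : ∀ q, X.I q → ℝ) (q : Fin r) [DecidableEq (X.I q)] :
    ∑ i, (if i = s q then f q i else 0) * g q i = f q (s q) * g q (s q) := by
  rw [Finset.sum_eq_single (s q)]
  · rw [if_pos rfl]
  · intro i _ hi
    rw [if_neg hi, zero_mul]
  · intro h
    exact absurd (Finset.mem_univ _) h

/-- the decomposition which shows `ε ≤ K κ(s)` -/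
private lemma big54K (X : Dat e r) (hr : 0 < r) {ε : ℝ} (hE : X.EE ε) (s : X.Sel)
    (hb : ∃ x, X.bb s x ≠ 0) : ∃ K : ℝ, 0 < K ∧ ε ≤ K * X.kap s := by
  classical
  set K : ℕ := ∏ q, X.h q (s q) with hK
  have hhpos : ∀ q, (0 : ℝ) < X.h q (s q) := fun q => by
    have := X.h_pos q (s q)
    exact_mod_cast this
  have hK0 : 0 < K := Finset.prod_pos fun q _ => X.h_pos q (s q)
  have hKR : (0 : ℝ) < K := by exact_mod_cast hK0
  have hdvd : ∀ q, X.h q (s q) ∣ K := fun q => Finset.dvd_prod_of_mem _ (Finset.mem_univ q)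
  have hcast : ∀ q, ((K / X.h q (s q) : ℕ) : ℝ) = K / X.h q (s q) := fun q =>
    Nat.cast_div (hdvd q) (hhpos q).ne'
  let w : Fin e → ℤ := fun x => ∑ q, X.v q (s q) x * ((K / X.h q (s q) : ℕ) : ℤ)
  have hw : ∀ x, (w x : ℝ) = K * X.bb s x := by
    intro x
    unfold Dat.bb
    simp only [w, Int.cast_sum, Int.cast_mul, Int.cast_natCast]
    rw [Finset.mul_sum]
    refine Finset.sum_congr rfl fun q _ => ?_
    rw [hcast q]
    ring
  have hw0 : w ≠ 0 := by
    obtain ⟨x, hx⟩ := hb
    intro h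
    have h1 := hw x
    rw [h] at h1
    simp only [Pi.zero_apply, Int.cast_zero] at h1
    exact mul_ne_zero hKR.ne' hx h1.symm
  refine ⟨K, hKR, ?_⟩
  have h := hE ⟨0, hr⟩ w 0 (Or.inl hw0) (fun _ => 0)
    (fun q i => if i = s q then (K : ℝ) / X.h q i else 0) K ?_
  · refine h.trans (le_of_eq ?_)
    unfold Dat.cost Dat.kap
    have h1 : ∀ q, ∑ i, (if i = s q then (K : ℝ) / X.h q i else 0) = K / X.h q (s q) := by
      intro q
      rw [Finset.sum_ite_eq' Finset.univ (s q) (fun i => (K : ℝ) / X.h q i), if_pos (Finset.mem_univ _)]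
    rw [Finset.sum_congr rfl fun q _ => h1 q, Finset.sum_const_zero, zero_add, mul_add, Finset.mul_sum]
    have h2 : ∑ q, (K : ℝ) / X.h q (s q) = ∑ q, (K : ℝ) * (1 / X.h q (s q)) :=
      Finset.sum_congr rfl fun q _ => by ring
    rw [h2]
    ring
  · refine ⟨fun _ => le_rfl, fun q i => ?_, hKR.le, fun x => ?_, fun q => ?_⟩
    · beta_reduce
      split_ifs
      · positivity
      · exact le_rfl
    · beta_reduce
      rw [hw]
      have h1 : ∀ q, ∑ i, (if i = s q then (K : ℝ) / X.h q i else 0) * (X.v q i x : ℝ) =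
          (K : ℝ) / X.h q (s q) * (X.v q (s q) x : ℝ) := fun q =>
        sum_ite54K X s (fun q i => (K : ℝ) / X.h q i) (fun q i => (X.v q i x : ℝ)) q
      rw [Finset.sum_congr rfl fun q _ => h1 q]
      unfold Dat.bb
      simp only [zero_mul, Finset.sum_const_zero, zero_add]
      rw [Finset.mul_sum]
      exact Finset.sum_congr rfl fun q _ => by ring
    · have h1 := sum_ite54K X s (fun q i => (K : ℝ) / X.h q i) (fun q i => (X.h q i : ℝ)) q
      beta_reduce
      rw [h1, div_mul_cancel₀ _ (hhpos q).ne']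
      simp

/-- the decompositions which show `ε ≤ 1 + t κ(s)` if `b(s) = 0` -/
private lemma small54K (X : Dat e r) (hr : 0 < r) {ε : ℝ} (hE : X.EE ε) (s : X.Sel)
    (hb : ∀ x, X.bb s x = 0) (t : ℝ) (ht : 0 ≤ t) : ε ≤ 1 + t * X.kap s := by
  classical
  set p : Fin r := ⟨0, hr⟩ with hp
  have hhpos : ∀ q, (0 : ℝ) < X.h q (s q) := fun q => by
    have := X.h_pos q (s q)
    exact_mod_cast this
  have hk0 : X.h p (s p) ≠ 0 := by
    have := X.h_pos p (s p)
    omega
  -- the second summand
  have hsec : ∀ (g : ∀ q, X.I q → ℝ) (q : Fin r),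
      ∑ i, (if q = p ∧ i = s q then (1 : ℝ) else 0) * g q i = if q = p then g p (s p) else 0 := by
    intro g q
    by_cases hq : q = p
    · rw [if_pos hq, hq]
      have h1 : ∀ i, (if p = p ∧ i = s p then (1 : ℝ) else 0) * g p i =
          (if i = s p then (1 : ℝ) else 0) * g p i := by
        intro i
        simp
      rw [Finset.sum_congr rfl fun i _ => h1 i, sum_ite54K X s (fun _ _ => 1) g p, one_mul]
    · rw [if_neg hq]
      refine Finset.sum_eq_zero fun i _ => ?_
      rw [if_neg (fun h => hq h.1), zero_mul]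
  have hfst : ∀ (g : ∀ q, X.I q → ℝ) (q : Fin r),
      ∑ i, (if i = s q then t / X.h q i else 0) * g q i = t / X.h q (s q) * g q (s q) := fun g q =>
    sum_ite54K X s (fun q i => t / X.h q i) g q
  have hboth : ∀ (g : ∀ q, X.I q → ℝ) (q : Fin r),
      ∑ i, ((if i = s q then t / X.h q i else 0) + (if q = p ∧ i = s q then (1 : ℝ) else 0)) * g q i =
        t / X.h q (s q) * g q (s q) + if q = p then g p (s p) else 0 := by
    intro g q
    rw [← hfst g q, ← hsec g q, ← Finset.sum_add_distrib]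
    exact Finset.sum_congr rfl fun i _ => by ring
  have h := hE p (X.v p (s p)) (X.h p (s p)) (Or.inr hk0) (fun _ => 0)
    (fun q i => (if i = s q then t / X.h q i else 0) + (if q = p ∧ i = s q then (1 : ℝ) else 0)) t ?_
  · refine h.trans (le_of_eq ?_)
    unfold Dat.cost Dat.kap
    have h1 : ∀ q, ∑ i, ((if i = s q then t / X.h q i else 0) +
        (if q = p ∧ i = s q then (1 : ℝ) else 0)) = t / X.h q (s q) + if q = p then 1 else 0 := by
      intro q
      have h2 := hboth (fun _ _ => 1) q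
      simpa using h2
    rw [Finset.sum_congr rfl fun q _ => h1 q, Finset.sum_add_distrib, Finset.sum_const_zero,
      Finset.sum_ite_eq' Finset.univ p, if_pos (Finset.mem_univ _)]
    have h2 : ∑ q, t / (X.h q (s q) : ℝ) = t * ∑ q, 1 / (X.h q (s q) : ℝ) := by
      rw [Finset.mul_sum]
      exact Finset.sum_congr rfl fun q _ => by ring
    rw [h2]
    ring
  · refine ⟨fun _ => le_rfl, fun q i => ?_, ht, fun x => ?_, fun q => ?_⟩
    · beta_reduce
      refine add_nonneg ?_ ?_
      · split_ifs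
        · positivity
        · exact le_rfl
      · split_ifs
        · exact zero_le_one
        · exact le_rfl
    · beta_reduce
      rw [Finset.sum_congr rfl fun q _ => hboth (fun q i => (X.v q i x : ℝ)) q,
        Finset.sum_add_distrib, Finset.sum_ite_eq' Finset.univ p, if_pos (Finset.mem_univ _)]
      have h2 : ∑ q, t / (X.h q (s q) : ℝ) * (X.v q (s q) x : ℝ) = t * X.bb s x := by
        unfold Dat.bb
        rw [Finset.mul_sum]
        exact Finset.sum_congr rfl fun q _ => by ring
      rw [h2, hb x]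
      simp
    · beta_reduce
      rw [hboth (fun q i => (X.h q i : ℝ)) q, div_mul_cancel₀ _ (hhpos q).ne']

theorem kap_nonneg (X : Dat e r) (hr : 0 < r) {ε : ℝ} (hε : 0 < ε) (hE : X.EE ε) (s : X.Sel) :
    0 ≤ X.kap s ∧ (X.kap s = 0 → ∀ x, X.bb s x = 0) := by
  have h2 : (∃ x, X.bb s x ≠ 0) → 0 < X.kap s := by
    intro hb
    obtain ⟨K, hK, h⟩ := big54K X hr hE s hb
    exact pos_of_mul_pos_right (hε.trans_le h) hK.le
  refine ⟨?_, fun h0 x => ?_⟩
  · by_cases hb : ∃ x, X.bb s x ≠ 0
    · exact (h2 hb).le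
    · push Not at hb
      by_contra hneg
      push Not at hneg
      have h3 := small54K X hr hE s hb (1 / (-X.kap s)) (by
        apply div_nonneg zero_le_one
        linarith)
      have h4 : 1 + 1 / (-X.kap s) * X.kap s = 0 := by
        have h5 : -X.kap s ≠ 0 := by linarith
        have h6 : 1 / (-X.kap s) * X.kap s = -(1 / (-X.kap s) * (-X.kap s)) := by ring
        rw [h6, one_div_mul_cancel h5]
        ring
      rw [h4] at h3
      linarith
  · by_contra hx
    have := h2 ⟨x, hx⟩
    linarith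

end Pool.Agent.CX
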