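import Pool.Agent.Helper45.CX.Defs
import Pool.Agent.Helper79.KLT.Pos

/-! Block CX-S1 (helper88): the positive spanning theorem with weights. -/

set_option autoImplicit false

namespace Pool.Agent.CX

variable {e r : ℕ}

/-- the functional of a real vector -/
private noncomputable def linS1 (y : Fin e → ℝ) (s : ℝ) : ((Fin e → ℤ) × ℤ) →+ ℝ where
  toFun m := ∑ x, (m.1 x : ℝ) * y x + (m.2 : ℝ) * s
  map_zero' := by simp
  map_add' m m' := by
    simp only [Prod.fst_add, Prod.snd_add, Pi.add_apply, Int.cast_add, add_mul, Finset.sum_add_distrib]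
    ring

private lemma linS1_apply (y : Fin e → ℝ) (s : ℝ) (m : (Fin e → ℤ) × ℤ) :
    linS1 y s m = ∑ x, (m.1 x : ℝ) * y x + (m.2 : ℝ) * s := rfl

private lemma linS1_single (y : Fin e → ℝ) (s : ℝ) (x : Fin e) : linS1 y s (Pi.single x 1, 0) = y x := by
  rw [linS1_apply, Finset.sum_eq_single x]
  · simp
  · intro b _ hb
    simp [Pi.single_eq_of_ne hb]
  · intro h
    exact absurd (Finset.mem_univ x) h

private lemma linS1_one (y : Fin e → ℝ) (s : ℝ) : linS1 y s (0, 1) = s := by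
  rw [linS1_apply]
  simp

private lemma extS1 (w : ((Fin e → ℤ) × ℤ) →+ ℤ) (h1 : ∀ x, w (Pi.single x 1, 0) = 0) (h2 : w (0, 1) = 0) : w = 0 := by
  ext m
  have e1 : m = ∑ x, (m.1 x) • ((Pi.single x 1, 0) : (Fin e → ℤ) × ℤ) + m.2 • ((0, 1) : (Fin e → ℤ) × ℤ) := by
    apply Prod.ext
    · funext x
      simp [Prod.fst_sum, Finset.sum_apply, Pi.single_apply]
    · simp [Prod.snd_sum]
  rw [e1, map_add, map_sum, map_zsmul, h2]
  simp only [map_zsmul, h1, smul_zero, Finset.sum_const_zero, add_zero]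
  rfl

/-- **CX-S1** -/
theorem span1 {ι : Type} [Fintype ι] (V : ι → (Fin e → ℝ) × ℝ) (c : ι → ℝ) (hc : ∀ i, 0 < c i)
    {δ : ℝ} (hδ : 0 < δ)
    (hV : ∀ (w : Fin e → ℤ) (k : ℤ), (w ≠ 0 ∨ k ≠ 0) → ∀ a : ι → ℝ, (∀ i, 0 ≤ a i) →
      (∀ x, (w x : ℝ) = ∑ i, a i * (V i).1 x) → ((k : ℝ) = ∑ i, a i * (V i).2) →
      δ ≤ ∑ i, a i * c i)
    (y : Fin e → ℝ) (s : ℝ) (hy : y ≠ 0 ∨ s ≠ 0) :
    ∃ (u : Fin e → ℤ) (t : ℤ), ∑ x, (u x : ℝ) * y x + (t : ℝ) * s < 0 ∧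
      ∀ i, -(((e : ℝ) + 1) * 2 ^ (e + 5) / δ * c i) ≤ ∑ x, (u x : ℝ) * (V i).1 x + (t : ℝ) * (V i).2 := by
  obtain ⟨U, hU⟩ : ∃ U : ι → ((Fin e → ℤ) × ℤ) →+ ℝ,
      U = fun i => linS1 (fun x => (V i).1 x / c i) ((V i).2 / c i) := ⟨_, rfl⟩
  have hU0 : ∀ i m, U i m = (∑ x, (m.1 x : ℝ) * (V i).1 x + (m.2 : ℝ) * (V i).2) / c i := by
    intro i m
    rw [hU, linS1_apply, add_div, Finset.sum_div]
    simp only [mul_div_assoc]
  have hH : ∀ w : ((Fin e → ℤ) × ℤ) →+ ℤ, w ≠ 0 → ∀ a : ι → ℝ, (∀ i, 0 ≤ a i) →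
      (∀ m, (w m : ℝ) = ∑ i, a i * U i m) → δ ≤ ∑ i, a i := by
    intro w hw a ha hwa
    have h1 := hV (fun x => w (Pi.single x 1, 0)) (w (0, 1)) (by
      by_contra hcon
      push Not at hcon
      exact hw (extS1 w (fun x => congrFun hcon.1 x) hcon.2)) (fun i => a i / c i)
      (fun i => div_nonneg (ha i) (hc i).le)
      (fun x => by
        rw [hwa]
        refine Finset.sum_congr rfl fun i _ => ?_
        rw [hU, linS1_single]
        ring)
      (by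
        rw [hwa]
        refine Finset.sum_congr rfl fun i _ => ?_
        rw [hU, linS1_one]
        ring)
    refine h1.trans (le_of_eq ?_)
    exact Finset.sum_congr rfl fun i _ => div_mul_cancel₀ _ (hc i).ne'
  have hv0 : linS1 y s ≠ 0 := by
    intro h
    rcases hy with hy | hy
    · apply hy
      funext x
      rw [← linS1_single y s x, h]
      rfl
    · apply hy
      rw [← linS1_one y s, h]
      rfl
  obtain ⟨m, hm0, hm⟩ := Helper79.KLT.pos_span (e + 1) ((Fin e → ℤ) × ℤ) (by simp) ι U δ hδ hH (linS1 y s) hv0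
  refine ⟨m.1, m.2, hm0, fun i => ?_⟩
  have h1 := hm i
  rw [hU0, le_div_iff₀ (hc i)] at h1
  refine le_trans (le_of_eq ?_) h1
  push_cast
  ring

/-- **CX-S1**, second theorem -/
theorem span0 {ι : Type} [Fintype ι] (V : ι → Fin e → ℝ) (c : ι → ℝ) (hc : ∀ i, 0 < c i)
    {δ : ℝ} (hδ : 0 < δ)
    (hV : ∀ w : Fin e → ℤ, w ≠ 0 → ∀ a : ι → ℝ, (∀ i, 0 ≤ a i) →
      (∀ x, (w x : ℝ) = ∑ i, a i * V i x) → δ ≤ ∑ i, a i * c i)
    (y : Fin e → ℝ) (hy : y ≠ 0) :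
    ∃ u : Fin e → ℤ, ∑ x, (u x : ℝ) * y x < 0 ∧
      ∀ i, -((e : ℝ) * 2 ^ (e + 4) / δ * c i) ≤ ∑ x, (u x : ℝ) * V i x := by
  classical
  obtain ⟨lin, hlin⟩ : ∃ lin : (Fin e → ℝ) → ((Fin e → ℤ) →+ ℝ),
      ∀ z m, lin z m = ∑ x, (m x : ℝ) * z x := by
    refine ⟨fun z => ⟨⟨fun m => ∑ x, (m x : ℝ) * z x, by simp⟩, fun m m' => ?_⟩, fun z m => rfl⟩
    simp only [Pi.add_apply, Int.cast_add, add_mul, Finset.sum_add_distrib]
  have hlin1 : ∀ (z : Fin e → ℝ) (x : Fin e), lin z (Pi.single x 1) = z x := by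
    intro z x
    rw [hlin, Finset.sum_eq_single x]
    · simp
    · intro b _ hb
      simp [Pi.single_eq_of_ne hb]
    · intro h
      exact absurd (Finset.mem_univ x) h
  obtain ⟨U, hU⟩ : ∃ U : ι → (Fin e → ℤ) →+ ℝ, U = fun i => lin (fun x => V i x / c i) := ⟨_, rfl⟩
  have hU0 : ∀ i m, U i m = (∑ x, (m x : ℝ) * V i x) / c i := by
    intro i m
    rw [hU, hlin, Finset.sum_div]
    simp only [mul_div_assoc]
  have hH : ∀ w : (Fin e → ℤ) →+ ℤ, w ≠ 0 → ∀ a : ι → ℝ, (∀ i, 0 ≤ a i) →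
      (∀ m, (w m : ℝ) = ∑ i, a i * U i m) → δ ≤ ∑ i, a i := by
    intro w hw a ha hwa
    have h1 := hV (fun x => w (Pi.single x 1)) (by
      intro hcon
      apply hw
      refine AddMonoidHom.ext fun m => ?_
      have e1 : m = ∑ x, (m x) • (Pi.single x 1 : Fin e → ℤ) := by
        funext x
        simp [Finset.sum_apply, Pi.single_apply]
      have e2 : ∀ x, w (Pi.single x 1) = 0 := fun x => congrFun hcon x
      rw [e1, map_sum]
      simp only [map_zsmul, e2, smul_zero, Finset.sum_const_zero]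
      rfl) (fun i => a i / c i)
      (fun i => div_nonneg (ha i) (hc i).le)
      (fun x => by
        rw [hwa]
        refine Finset.sum_congr rfl fun i _ => ?_
        rw [hU, hlin1]
        ring)
    refine h1.trans (le_of_eq ?_)
    exact Finset.sum_congr rfl fun i _ => div_mul_cancel₀ _ (hc i).ne'
  have hv0 : lin y ≠ 0 := by
    intro h
    apply hy
    funext x
    rw [← hlin1 y x, h]
    rfl
  obtain ⟨m, hm0, hm⟩ := Helper79.KLT.pos_span e (Fin e → ℤ) (by simp) ι U δ hδ hH (lin y) hv0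
  refine ⟨m, ?_, fun i => ?_⟩
  · rw [← hlin]
    exact hm0
  · have h1 := hm i
    rw [hU0, le_div_iff₀ (hc i)] at h1
    refine le_trans (le_of_eq ?_) h1
    ring

end Pool.Agent.CX
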