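import Pool.Agent.Helper45.CX.Defs
import Pool.Agent.Helper45.CX.Span

/-!
# CX-0: a point without vertical divisors
-/

namespace Pool.Agent.CX

variable {e r : ℕ}

/-- the section with prescribed order at `p` -/
private theorem sec_pw0 (X : Dat e r) {p' : Fin r} (hp' : IsEmpty (X.I p')) {p : Fin r} (hp : p ≠ p')
    (n : ℕ) (u : Fin e → ℤ) (t : ℤ) (h1 : ∀ j, -(n : ℤ) ≤ ∑ x, u x * X.g j x)
    (h2 : ∀ i, -(n : ℤ) ≤ ∑ x, u x * X.v p i x + X.h p i * t) :
    ∃ z : Fin r → ℤ, X.Sec n u z ∧ z p = n + t := by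
  classical
  -- a lower bound for all the quotients
  have hm : ∀ q : Fin r, ∃ m : ℤ, ∀ i, m ≤ (n + ∑ x, u x * X.v q i x) / X.h q i := by
    intro q
    obtain ⟨m, hm⟩ := (Set.finite_range fun i => (n + ∑ x, u x * X.v q i x) / (X.h q i : ℤ)).bddBelow
    exact ⟨m, fun i => hm ⟨i, rfl⟩⟩
  choose m hm using hm
  set z0 : Fin r → ℤ := fun q => if q = p then n + t else n - m q with hz0
  set z : Fin r → ℤ := fun q => if q = p' then 2 * n - ∑ q ∈ Finset.univ.erase p', z0 q else z0 q with hz
  have hzp : z p = n + t := by simp [hz, hz0, hp]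
  refine ⟨z, ⟨h1, ?_, ?_⟩, hzp⟩
  · intro q i
    have hq : q ≠ p' := by
      rintro rfl
      exact hp'.elim i
    by_cases hqp : q = p
    · subst hqp
      rw [hzp]
      have := h2 i
      linarith
    · have hzq : z q = n - m q := by simp [hz, hz0, hq, hqp]
      rw [hzq]
      have hh : (0 : ℤ) < X.h q i := by exact_mod_cast X.h_pos q i
      have h3 := hm q i
      have h4 := Int.ediv_mul_le (n + ∑ x, u x * X.v q i x) hh.ne'
      have h5 : (X.h q i : ℤ) * m q ≤ X.h q i * ((n + ∑ x, u x * X.v q i x) / X.h q i) :=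
        mul_le_mul_of_nonneg_left h3 hh.le
      linarith
  · have h3 : ∑ q, z q = z p' + ∑ q ∈ Finset.univ.erase p', z q :=
      (Finset.add_sum_erase _ _ (Finset.mem_univ p')).symm
    have h4 : ∑ q ∈ Finset.univ.erase p', z q = ∑ q ∈ Finset.univ.erase p', z0 q := by
      refine Finset.sum_congr rfl fun q hq => ?_
      simp [hz, Finset.ne_of_mem_erase hq]
    have h5 : z p' = 2 * n - ∑ q ∈ Finset.univ.erase p', z0 q := by simp [hz]
    rw [h3, h4, h5]
    linarith

/-- the main step at a point `p ≠ p'` -/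
private theorem main_pw0 (X : Dat e r) {p' : Fin r} (hp' : IsEmpty (X.I p')) {p : Fin r} (hp : p ≠ p')
    {ε : ℝ} (hε : 0 < ε) (hE : X.EE ε) {n : ℕ} (hn : ((e : ℝ) + 1) * 2 ^ (e + 5) / ε ≤ n)
    (y : Fin e → ℝ) (k : ℝ) (hy : y ≠ 0 ∨ k ≠ 0) :
    ∃ (u : Fin e → ℤ) (z : Fin r → ℤ), X.Sec n u z ∧
      ∑ x, (u x : ℝ) * y x + k * ((z p : ℝ) - n) < 0 := by
  classical
  obtain ⟨u, t, hut, hge⟩ := span1 (e := e) (ι := X.J ⊕ X.I p)
    (Sum.elim (fun j => ((fun x => (X.g j x : ℝ)), 0))
      (fun i => ((fun x => (X.v p i x : ℝ)), (X.h p i : ℝ)))) (fun _ => 1) (fun _ => one_pos) hε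
    (by
      intro w k hwk a ha hw hk
      simp only [Fintype.sum_sum_type, Sum.elim_inl, Sum.elim_inr] at hw hk
      simp only [Fintype.sum_sum_type, mul_one]
      have hk0 : 0 ≤ k := by
        have : (0 : ℝ) ≤ k := by
          rw [hk]
          have h1 : ∑ j, a (Sum.inl j) * (0 : ℝ) = 0 := by simp
          rw [h1, zero_add]
          exact Finset.sum_nonneg fun i _ => mul_nonneg (ha _) (by positivity)
        exact_mod_cast this
      obtain ⟨k, rfl⟩ := Int.eq_ofNat_of_zero_le hk0
      have h := hE p w k (by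
        rcases hwk with h | h
        · exact Or.inl h
        · right
          intro h0
          apply h
          simp [h0]) (fun j => a (Sum.inl j))
          (Function.update (fun q _ => 0) p (fun i => a (Sum.inr i))) 0 ?_
      · have h2 : ∑ q, ∑ i, (Function.update (fun q _ => (0 : ℝ)) p (fun i => a (Sum.inr i)) :
            ∀ q, X.I q → ℝ) q i = ∑ i, a (Sum.inr i) := by
          rw [Finset.sum_eq_single p]
          · simp
          · intro q _ hq
            simp [Function.update_of_ne hq]
          · simp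
        unfold Dat.cost at h
        rw [h2] at h
        linarith
      · refine ⟨fun j => ha _, ?_, le_rfl, ?_, ?_⟩
        · intro q i
          by_cases hq : q = p
          · subst hq
            simpa using ha _
          · simp [Function.update_of_ne hq]
        · intro x
          show (w x : ℝ) = _
          rw [hw x]
          congr 1
          rw [Finset.sum_eq_single p]
          · simp
          · intro q _ hq
            simp [Function.update_of_ne hq]
          · simp
        · intro q
          by_cases hq : q = p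
          · subst hq
            simp only [Function.update_self, if_true, zero_add]
            rw [Int.cast_natCast] at hk
            rw [hk]
            simp
          · simp [hq])
    y k hy
  obtain ⟨z, hz, hzp⟩ := sec_pw0 X hp' hp n u t
    (by
      intro j
      have h := hge (Sum.inl j)
      simp only [Sum.elim_inl, mul_zero, add_zero, mul_one] at h
      have h2 : (-(n : ℝ)) ≤ ∑ x, (u x : ℝ) * X.g j x := by linarith
      exact_mod_cast h2)
    (by
      intro i
      have h := hge (Sum.inr i)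
      simp only [Sum.elim_inr, mul_one] at h
      have h2 : (-(n : ℝ)) ≤ ∑ x, (u x : ℝ) * X.v p i x + X.h p i * t := by linarith
      exact_mod_cast h2)
  refine ⟨u, z, hz, ?_⟩
  rw [hzp]
  push_cast
  have h3 : k * ((n : ℝ) + t - n) = t * k := by ring
  rw [h3]
  exact hut

/-- **CX-0**. -/
theorem pw0 (X : Dat e r) (hr : 2 ≤ r) {p' : Fin r} (hp' : IsEmpty (X.I p')) {ε : ℝ} (hε : 0 < ε)
    (hE : X.EE ε) {n : ℕ} (hn : ((e : ℝ) + 1) * 2 ^ (e + 5) / ε ≤ n) : X.PW n := by
  classical
  obtain ⟨p₁, hp₁⟩ : ∃ p₁ : Fin r, p₁ ≠ p' := by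
    have : Nontrivial (Fin r) := Fin.nontrivial_iff_two_le.mpr hr
    exact exists_ne p'
  refine ⟨?_, ?_⟩
  · obtain ⟨z, hz, -⟩ := sec_pw0 X hp' hp₁ n 0 0 (by intro j; simp) (by intro i; simp)
    exact ⟨z, hz⟩
  · intro p y k hk hy hIk
    by_cases hp : p = p'
    · subst hp
      have hk0 := hIk hp'
      subst hk0
      obtain ⟨u, z, hz, h⟩ := main_pw0 X hp' hp₁ hε hE hn y 0 hy
      refine ⟨u, z, hz, ?_⟩
      simpa using h
    · exact main_pw0 X hp' hp hε hE hn y k hy

end Pool.Agent.CX
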