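import Pool.Agent.Helper45.CX.Span

/-!
# Project CX, block CX-A: all multiplicities at most six
-/

namespace Pool.Agent.CX

variable {e r : ℕ}

/-- `h` divides sixty -/
lemma dvd_sixty_pwA {h : ℕ} (h1 : 1 ≤ h) (h6 : h ≤ 6) : h * (60 / h) = 60 ∧ 1 ≤ 60 / h := by
  interval_cases h <;> norm_num

lemma sixty_div_pwA {h : ℕ} (h1 : 1 ≤ h) (h6 : h ≤ 6) : ((60 / h : ℕ) : ℝ) = 60 / (h : ℝ) := by
  have h2 := (dvd_sixty_pwA h1 h6).1
  have h3 : (h : ℝ) ≠ 0 := by
    have : (1 : ℝ) ≤ h := by exact_mod_cast h1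
    positivity
  have h4 : (h : ℝ) * ((60 / h : ℕ) : ℝ) = 60 := by exact_mod_cast h2
  field_simp
  linarith

/-- sections from linear forms -/
lemma sec_pwA (X : Dat e r) (hI : ∀ p, Nonempty (X.I p)) (h6 : ∀ p i, X.h p i ≤ 6) {m : ℕ}
    (u : Fin e → ℤ) (hg : ∀ j, -(m : ℤ) ≤ ∑ x, u x * X.g j x)
    (hb : ∀ s : X.Sel, -((m : ℝ) * X.kap s) ≤ ∑ x, (u x : ℝ) * X.bb s x) :
    ∃ z : Fin r → ℤ, X.Sec (60 * m) (fun x => 60 * u x) z ∧
      ∀ p, ∃ i, z p - ((60 * m : ℕ) : ℤ) = -(((60 / X.h p i : ℕ) : ℤ) * (m + ∑ x, u x * X.v p i x)) := by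
  classical
  have hs : ∀ p, ∃ i : X.I p, ∀ i' : X.I p,
      ((60 / X.h p i : ℕ) : ℤ) * (m + ∑ x, u x * X.v p i x) ≤
        ((60 / X.h p i' : ℕ) : ℤ) * (m + ∑ x, u x * X.v p i' x) := fun p =>
    Finite.exists_min fun i : X.I p => ((60 / X.h p i : ℕ) : ℤ) * (m + ∑ x, u x * X.v p i x)
  choose s hs using hs
  refine ⟨fun p => ((60 * m : ℕ) : ℤ) -
    ((60 / X.h p (s p) : ℕ) : ℤ) * (m + ∑ x, u x * X.v p (s p) x), ⟨?_, ?_, ?_⟩, fun p => ⟨s p, ?_⟩⟩
  · intro j
    have h1 : ∑ x, 60 * u x * X.g j x = 60 * ∑ x, u x * X.g j x := by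
      rw [Finset.mul_sum]
      exact Finset.sum_congr rfl fun x _ => by ring
    rw [h1]
    have := hg j
    push_cast
    linarith
  · intro p i
    have h1 : ∑ x, 60 * u x * X.v p i x = 60 * ∑ x, u x * X.v p i x := by
      rw [Finset.mul_sum]
      exact Finset.sum_congr rfl fun x _ => by ring
    have h2 := hs p i
    have h3 : ((X.h p i : ℕ) : ℤ) * ((60 / X.h p i : ℕ) : ℤ) = 60 := by
      exact_mod_cast (dvd_sixty_pwA (X.h_pos p i) (h6 p i)).1
    have h4 : (0 : ℤ) ≤ (X.h p i : ℤ) := Int.natCast_nonneg _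
    have h5 := mul_le_mul_of_nonneg_left h2 h4
    rw [h1]
    have h6' : (X.h p i : ℤ) * (((60 / X.h p i : ℕ) : ℤ) * (m + ∑ x, u x * X.v p i x)) =
        60 * (m + ∑ x, u x * X.v p i x) := by
      rw [← mul_assoc, h3]
    rw [h6'] at h5
    push_cast at h5 ⊢
    linarith
  · have h1 : (∑ p, (((60 * m : ℕ) : ℤ) -
        ((60 / X.h p (s p) : ℕ) : ℤ) * (m + ∑ x, u x * X.v p (s p) x)) : ℤ) ≤ 2 * ((60 * m : ℕ) : ℤ) := by
      have h2 : (((∑ p, (((60 * m : ℕ) : ℤ) -
          ((60 / X.h p (s p) : ℕ) : ℤ) * (m + ∑ x, u x * X.v p (s p) x)) : ℤ)) : ℝ) ≤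
          ((2 * ((60 * m : ℕ) : ℤ) : ℤ) : ℝ) := by
        have hsix : ∀ p, (((60 : ℤ) / (X.h p (s p) : ℤ) : ℤ) : ℝ) = 60 / (X.h p (s p) : ℝ) := by
          intro p
          rw [← sixty_div_pwA (X.h_pos _ _) (h6 _ _)]
          have h1 : ((60 : ℤ) / (X.h p (s p) : ℤ) : ℤ) = ((60 / X.h p (s p) : ℕ) : ℤ) := by
            push_cast
            rfl
          rw [h1, Int.cast_natCast]
        push_cast
        simp only [hsix]
        have h3 := hb s
        have h4 : ∑ x, (u x : ℝ) * X.bb s x =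
            ∑ p, 1 / (X.h p (s p) : ℝ) * ∑ x, (u x : ℝ) * (X.v p (s p) x : ℝ) := by
          unfold Dat.bb
          simp only [Finset.mul_sum]
          rw [Finset.sum_comm]
          refine Finset.sum_congr rfl fun p _ => Finset.sum_congr rfl fun x _ => ?_
          ring
        have h5 : ∑ p, ((60 : ℝ) * m - (60 / (X.h p (s p) : ℝ)) *
            (m + ∑ x, (u x : ℝ) * (X.v p (s p) x : ℝ))) =
            2 * (60 * m) - 60 * (m * X.kap s + ∑ x, (u x : ℝ) * X.bb s x) := by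
          rw [h4]
          unfold Dat.kap
          have h6'' : ∀ p, ((60 : ℝ) * m - (60 / (X.h p (s p) : ℝ)) *
              (m + ∑ x, (u x : ℝ) * (X.v p (s p) x : ℝ))) =
              60 * m - 60 * m * (1 / (X.h p (s p) : ℝ)) -
                60 * (1 / (X.h p (s p) : ℝ) * ∑ x, (u x : ℝ) * (X.v p (s p) x : ℝ)) := by
            intro p
            ring
          have e1 : ∑ p, 60 * (m : ℝ) * (1 / (X.h p (s p) : ℝ)) =
              60 * m * ∑ p, 1 / (X.h p (s p) : ℝ) := (Finset.mul_sum _ _ _).symm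
          have e2 : ∑ p, 60 * (1 / (X.h p (s p) : ℝ) * ∑ x, (u x : ℝ) * (X.v p (s p) x : ℝ)) =
              60 * ∑ p, 1 / (X.h p (s p) : ℝ) * ∑ x, (u x : ℝ) * (X.v p (s p) x : ℝ) :=
            (Finset.mul_sum _ _ _).symm
          rw [Finset.sum_congr rfl fun p _ => h6'' p, Finset.sum_sub_distrib, Finset.sum_sub_distrib,
            e1, e2, Finset.sum_const, Finset.card_univ, Fintype.card_fin, nsmul_eq_mul]
          ring
        rw [h5]
        linarith
      exact_mod_cast h2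
    exact h1
  · push_cast
    ring

/-- **CX-A.** -/
theorem pwA (X : Dat e r) (hr : 0 < r) (hI : ∀ p, Nonempty (X.I p))
    (h6 : ∀ p i, X.h p i ≤ 6) {ε : ℝ} (hε : 0 < ε) (hE : X.EE ε)
    (hk : ∀ s, 0 ≤ X.kap s ∧ (X.kap s = 0 → ∀ x, X.bb s x = 0))
    {m : ℕ} (hm1 : 1 ≤ m) (hm : (e : ℝ) * 2 ^ (e + 4) / ε ≤ m) : X.PW (60 * m) := by
  classical
  have hm0 : (0 : ℝ) ≤ m := Nat.cast_nonneg m
  -- the zero section
  obtain ⟨z₀, hz₀, hz₀'⟩ := sec_pwA X hI h6 (m := m) (fun _ => 0) (by simp) (by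
    intro s
    simp only [Int.cast_zero, zero_mul, Finset.sum_const_zero, Left.neg_nonpos_iff]
    exact mul_nonneg hm0 (hk s).1)
  have hz : X.Sec (60 * m) 0 z₀ := by
    have h1 : (fun _ : Fin e => (60 : ℤ) * 0) = 0 := by
      funext x
      simp
    rw [h1] at hz₀
    exact hz₀
  refine ⟨⟨z₀, hz⟩, fun p y k hk0 hyk _ => ?_⟩
  rcases hk0.lt_or_eq with hkp | hk0'
  · refine ⟨0, z₀, hz, ?_⟩
    obtain ⟨i, hi⟩ := hz₀' p
    simp only [zero_mul, Finset.sum_const_zero, add_zero] at hi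
    have h1 : (z₀ p : ℝ) - ((60 * m : ℕ) : ℝ) = -(((60 / X.h p i : ℕ) : ℝ) * m) := by
      exact_mod_cast hi
    have h2 : (1 : ℝ) ≤ ((60 / X.h p i : ℕ) : ℝ) := by
      exact_mod_cast (dvd_sixty_pwA (X.h_pos p i) (h6 p i)).2
    have h3 : (1 : ℝ) ≤ m := by exact_mod_cast hm1
    rw [h1]
    simp only [Pi.zero_apply, Int.cast_zero, zero_mul, Finset.sum_const_zero, zero_add]
    have : (0 : ℝ) < ((60 / X.h p i : ℕ) : ℝ) * m := by positivity
    nlinarith
  · have hy : y ≠ 0 := by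
      rcases hyk with h | h
      · exact h
      · exact absurd hk0'.symm h
    let p₀ : Fin r := ⟨0, hr⟩
    let V : X.J ⊕ {s : X.Sel // 0 < X.kap s} → Fin e → ℝ :=
      Sum.elim (fun j x => (X.g j x : ℝ)) fun s => X.bb s.1
    let c : X.J ⊕ {s : X.Sel // 0 < X.kap s} → ℝ := Sum.elim (fun _ => 1) fun s => X.kap s.1
    have hc : ∀ i, 0 < c i := by
      rintro (j | s)
      · exact zero_lt_one
      · exact s.2
    have hV : ∀ w : Fin e → ℤ, w ≠ 0 → ∀ a : X.J ⊕ {s : X.Sel // 0 < X.kap s} → ℝ, (∀ i, 0 ≤ a i) →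
        (∀ x, (w x : ℝ) = ∑ i, a i * V i x) → ε ≤ ∑ i, a i * c i := by
      intro w hw a ha hwa
      let b : ∀ q, X.I q → ℝ := fun q i =>
        ∑ s : {s : X.Sel // 0 < X.kap s}, if s.1 q = i then a (Sum.inr s) / (X.h q i : ℝ) else 0
      have hbsum : ∀ (q : Fin r) (φ : X.I q → ℝ), ∑ i, b q i * φ i =
          ∑ s : {s : X.Sel // 0 < X.kap s}, a (Sum.inr s) / (X.h q (s.1 q) : ℝ) * φ (s.1 q) := by
        intro q φ
        simp only [b, Finset.sum_mul]
        rw [Finset.sum_comm]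
        refine Finset.sum_congr rfl fun s _ => ?_
        rw [Finset.sum_eq_single (s.1 q)]
        · rw [if_pos rfl]
        · intro i _ hi
          rw [if_neg (Ne.symm hi), zero_mul]
        · intro h
          exact absurd (Finset.mem_univ _) h
      have hh : ∀ q i, (X.h q i : ℝ) ≠ 0 := by
        intro q i
        have : (1 : ℝ) ≤ X.h q i := by exact_mod_cast X.h_pos q i
        positivity
      have h1 := hE p₀ w 0 (Or.inl hw) (fun j => a (Sum.inl j)) b
        (∑ s : {s : X.Sel // 0 < X.kap s}, a (Sum.inr s)) ⟨fun j => ha _, ?_, ?_, ?_, ?_⟩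
      · refine h1.trans (le_of_eq ?_)
        unfold Dat.cost
        rw [Fintype.sum_sum_type]
        simp only [c, Sum.elim_inl, Sum.elim_inr, mul_one]
        rw [add_assoc]
        congr 1
        have h2 : ∀ q, ∑ i, b q i =
            ∑ s : {s : X.Sel // 0 < X.kap s}, a (Sum.inr s) / (X.h q (s.1 q) : ℝ) := by
          intro q
          have := hbsum q fun _ => 1
          simpa only [mul_one] using this
        rw [Finset.sum_congr rfl fun q _ => h2 q, Finset.sum_comm, Finset.mul_sum,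
          ← Finset.sum_add_distrib]
        refine Finset.sum_congr rfl fun s _ => ?_
        unfold Dat.kap
        rw [mul_add, Finset.mul_sum, add_comm]
        congr 1
        · ring
        · refine Finset.sum_congr rfl fun q _ => ?_
          ring
      · intro q i
        refine Finset.sum_nonneg fun s _ => ?_
        split_ifs
        · exact div_nonneg (ha _) (Nat.cast_nonneg _)
        · exact le_rfl
      · exact Finset.sum_nonneg fun s _ => ha _
      · intro x
        change (w x : ℝ) = _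
        rw [hwa x, Fintype.sum_sum_type]
        congr 1
        rw [Finset.sum_congr rfl fun q _ => hbsum q fun i => (X.v q i x : ℝ), Finset.sum_comm]
        refine Finset.sum_congr rfl fun s _ => ?_
        simp only [V, Sum.elim_inr]
        unfold Dat.bb
        rw [Finset.mul_sum]
        refine Finset.sum_congr rfl fun q _ => ?_
        ring
      · intro q
        rw [hbsum q fun i => (X.h q i : ℝ)]
        have h2 : (if q = p₀ then ((0 : ℕ) : ℝ) else 0) = 0 := by simp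
        rw [h2, add_zero]
        refine Finset.sum_congr rfl fun s _ => ?_
        exact div_mul_cancel₀ _ (hh _ _)
    obtain ⟨u, hu, hu'⟩ := span0 V c hc hε hV y hy
    obtain ⟨z, hz1, -⟩ := sec_pwA X hI h6 (m := m) u (by
      intro j
      have h1 := hu' (Sum.inl j)
      simp only [V, c, Sum.elim_inl, mul_one] at h1
      have h2 : -(m : ℝ) ≤ ∑ x, (u x : ℝ) * (X.g j x : ℝ) := by linarith
      exact_mod_cast h2) (by
      intro s
      rcases (hk s).1.lt_or_eq with h0 | h0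
      · have h1 := hu' (Sum.inr ⟨s, h0⟩)
        simp only [V, c, Sum.elim_inr] at h1
        have h2 : (e : ℝ) * 2 ^ (e + 4) / ε * X.kap s ≤ m * X.kap s :=
          mul_le_mul_of_nonneg_right hm h0.le
        linarith
      · rw [← h0]
        simp only [(hk s).2 h0.symm, mul_zero, Finset.sum_const_zero, neg_zero, le_refl])
    refine ⟨_, z, hz1, ?_⟩
    rw [← hk0', zero_mul, add_zero]
    have h1 : ∑ x, ((60 * u x : ℤ) : ℝ) * y x = 60 * ∑ x, (u x : ℝ) * y x := by
      rw [Finset.mul_sum]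
      refine Finset.sum_congr rfl fun x _ => ?_
      push_cast
      ring
    rw [h1]
    linarith

end Pool.Agent.CX
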