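import Pool.Agent.Helper45.CX.Span

/-!
# Project CX, block B2: `PW` from the goodness of the toric degeneration `p₁ | p₂ + the rest`
-/

namespace Pool.Agent.CX

variable {e r : ℕ}

/-- the section of the weight `u` and the order `n + t` at `p₁` -/
private lemma sec_PwB99 (X : Dat e r) (hI : ∀ p, Nonempty (X.I p)) {p₁ p₂ : Fin r} (hp : p₁ ≠ p₂)
    (h1 : ∀ q, q ≠ p₁ → q ≠ p₂ → ∀ i, X.h q i = 1) {n : ℕ} (u : Fin e → ℤ) (t : ℤ)
    (ha : ∀ j, -(n : ℤ) ≤ ∑ x, u x * X.g j x)
    (hb : ∀ i, -(n : ℤ) ≤ ∑ x, u x * X.v p₁ i x + X.h p₁ i * t)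
    (hc : ∀ i (s : X.Sel), -(n : ℤ) ≤ ∑ x, u x * (X.v p₂ i x + X.h p₂ i * X.qB p₁ p₂ s x) -
      X.h p₂ i * t) :
    ∃ z : Fin r → ℤ, X.Sec n u z ∧ z p₁ = n + t ∧
      (∀ s : X.Sel, z p₂ ≤ n - t + ∑ x, u x * X.qB p₁ p₂ s x) ∧
      (u = 0 → ∀ q, q ≠ p₁ → q ≠ p₂ → z q = 0) := by
  classical
  -- the selection of the minima
  have hmin : ∀ q, ∃ i : X.I q, ∀ i', ∑ x, u x * X.v q i x ≤ ∑ x, u x * X.v q i' x := by
    intro q
    have := hI q
    obtain ⟨i, -, hi⟩ := Finset.exists_min_image (Finset.univ : Finset (X.I q))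
      (fun i => ∑ x, u x * X.v q i x) Finset.univ_nonempty
    exact ⟨i, fun i' => hi i' (Finset.mem_univ _)⟩
  choose s hs using hmin
  -- the pairing with `qB`
  have hqB : ∀ s' : X.Sel, ∑ x, u x * X.qB p₁ p₂ s' x =
      ∑ q, if q = p₁ ∨ q = p₂ then 0 else ∑ x, u x * X.v q (s' q) x := by
    intro s'
    unfold Dat.qB
    simp only [Finset.mul_sum]
    rw [Finset.sum_comm]
    refine Finset.sum_congr rfl fun q _ => ?_
    split_ifs
    · simp
    · rfl
  let M : ℤ := ∑ q, if q = p₁ ∨ q = p₂ then 0 else ∑ x, u x * X.v q (s q) x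
  have hM : ∑ x, u x * X.qB p₁ p₂ s x = M := hqB s
  have hMle : ∀ s' : X.Sel, M ≤ ∑ x, u x * X.qB p₁ p₂ s' x := by
    intro s'
    rw [hqB s']
    refine Finset.sum_le_sum fun q _ => ?_
    split_ifs
    · exact le_rfl
    · exact hs q (s' q)
  let z : Fin r → ℤ := fun q => if q = p₁ then n + t else if q = p₂ then n - t + M else
    -∑ x, u x * X.v q (s q) x
  have hz1 : z p₁ = n + t := by simp [z]
  have hz2 : z p₂ = n - t + M := by
    have : p₂ ≠ p₁ := hp.symm
    simp [z, this]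
  have hz3 : ∀ q, q ≠ p₁ → q ≠ p₂ → z q = -∑ x, u x * X.v q (s q) x := by
    intro q h1' h2'
    simp [z, h1', h2']
  refine ⟨z, ⟨ha, ?_, ?_⟩, hz1, ?_, ?_⟩
  · intro q i
    by_cases hq1 : q = p₁
    · subst hq1
      rw [hz1]
      have := hb i
      have h2 : (n : ℤ) + t - n = t := by ring
      rw [h2]
      exact this
    · by_cases hq2 : q = p₂
      · subst hq2
        rw [hz2]
        have := hc i s
        have h2 : ∑ x, u x * (X.v q i x + X.h q i * X.qB p₁ q s x) =
            ∑ x, u x * X.v q i x + X.h q i * M := by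
          rw [← hM, Finset.mul_sum, ← Finset.sum_add_distrib]
          exact Finset.sum_congr rfl fun x _ => by ring
        rw [h2] at this
        have h3 : (X.h q i : ℤ) * ((n : ℤ) - t + M - n) = X.h q i * M - X.h q i * t := by ring
        rw [h3]
        linarith
      · rw [hz3 q hq1 hq2, h1 q hq1 hq2 i]
        have := hs q i
        push_cast
        linarith
  · have hsum : ∑ q, z q = 2 * n := by
      have h2 : ∀ q, z q = (if q = p₁ then (n : ℤ) + t else 0) + ((if q = p₂ then (n : ℤ) - t + M else 0) -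
          (if q = p₁ ∨ q = p₂ then 0 else ∑ x, u x * X.v q (s q) x)) := by
        intro q
        by_cases hq1 : q = p₁
        · subst hq1
          rw [hz1]
          simp [hp]
        · by_cases hq2 : q = p₂
          · subst hq2
            rw [hz2]
            simp [hq1]
          · rw [hz3 q hq1 hq2]
            simp [hq1, hq2]
      rw [Finset.sum_congr rfl fun q _ => h2 q, Finset.sum_add_distrib, Finset.sum_sub_distrib,
        Finset.sum_ite_eq' Finset.univ p₁, Finset.sum_ite_eq' Finset.univ p₂,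
        if_pos (Finset.mem_univ _), if_pos (Finset.mem_univ _)]
      change (n : ℤ) + t + (n - t + M - M) = 2 * n
      ring
    exact hsum.le
  · intro s'
    rw [hz2]
    have := hMle s'
    linarith
  · intro hu q hq1 hq2
    rw [hz3 q hq1 hq2, hu]
    simp

/-- **CX-B2** -/
theorem pwB (X : Dat e r) (hI : ∀ p, Nonempty (X.I p)) {p₁ p₂ : Fin r} (hp : p₁ ≠ p₂)
    (h1 : ∀ q, q ≠ p₁ → q ≠ p₂ → ∀ i, X.h q i = 1) {δ : ℝ} (hδ : 0 < δ) (hG : X.GoodB p₁ p₂ δ)
    {n : ℕ} (hn : ((e : ℝ) + 1) * 2 ^ (e + 5) / δ ≤ n) : X.PW n := by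
  classical
  have hn0 : (0 : ℝ) < n := lt_of_lt_of_le (by positivity) hn
  -- the functionals
  let V : X.J ⊕ (X.I p₁ ⊕ (X.I p₂ × X.Sel)) → (Fin e → ℝ) × ℝ := fun i => match i with
    | Sum.inl j => (fun x => (X.g j x : ℝ), 0)
    | Sum.inr (Sum.inl i) => (fun x => (X.v p₁ i x : ℝ), (X.h p₁ i : ℝ))
    | Sum.inr (Sum.inr i) => (fun x => (X.v p₂ i.1 x : ℝ) + X.h p₂ i.1 * (X.qB p₁ p₂ i.2 x : ℝ),
        -(X.h p₂ i.1 : ℝ))
  have key : ∀ (y : Fin e → ℝ) (k : ℝ), (y ≠ 0 ∨ k ≠ 0) →
      ∃ (u : Fin e → ℤ) (t : ℤ) (z : Fin r → ℤ), ∑ x, (u x : ℝ) * y x + (t : ℝ) * k < 0 ∧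
        X.Sec n u z ∧ z p₁ = n + t ∧
        (∀ s : X.Sel, z p₂ ≤ n - t + ∑ x, u x * X.qB p₁ p₂ s x) := by
    intro y k hyk
    obtain ⟨u, t, hlt, hV⟩ := span1 V (fun _ => 1) (fun _ => one_pos) hδ (by
      intro w k' hw a ha hwa hka
      have hg := hG w k' hw (fun j => a (Sum.inl j)) (fun i => a (Sum.inr (Sum.inl i)))
        (fun i s => a (Sum.inr (Sum.inr (i, s)))) (fun j => ha _) (fun i => ha _) (fun i s => ha _)
        (by
          intro x
          rw [hwa x]
          simp only [Fintype.sum_sum_type, Fintype.sum_prod_type, V]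
          ring)
        (by
          rw [hka]
          simp only [Fintype.sum_sum_type, Fintype.sum_prod_type, V]
          simp only [mul_zero, Finset.sum_const_zero, zero_add, mul_neg, Finset.sum_neg_distrib]
          ring)
      refine hg.trans (le_of_eq ?_)
      simp only [Fintype.sum_sum_type, Fintype.sum_prod_type, mul_one]
      ring) y k hyk
    have hV' : ∀ i, -(n : ℝ) ≤ ∑ x, (u x : ℝ) * (V i).1 x + (t : ℝ) * (V i).2 := by
      intro i
      refine le_trans ?_ (hV i)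
      rw [mul_one]
      linarith
    obtain ⟨z, hz, hz1, hz2, -⟩ := sec_PwB99 X hI hp h1 (n := n) u t
      (by
        intro j
        have := hV' (Sum.inl j)
        simp only [V, mul_zero, add_zero] at this
        exact_mod_cast this)
      (by
        intro i
        have := hV' (Sum.inr (Sum.inl i))
        simp only [V] at this
        have h2 : -(n : ℝ) ≤ ((∑ x, u x * X.v p₁ i x + X.h p₁ i * t : ℤ) : ℝ) := by
          push_cast
          rw [mul_comm (X.h p₁ i : ℝ) (t : ℝ)]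
          exact this
        exact_mod_cast h2)
      (by
        intro i s
        have := hV' (Sum.inr (Sum.inr (i, s)))
        simp only [V] at this
        have h2 : -(n : ℝ) ≤ ((∑ x, u x * (X.v p₂ i x + X.h p₂ i * X.qB p₁ p₂ s x) -
            X.h p₂ i * t : ℤ) : ℝ) := by
          push_cast
          linarith
        exact_mod_cast h2)
    exact ⟨u, t, z, hlt, hz, hz1, hz2⟩
  -- the zero section
  obtain ⟨z0, hz0, hz01, hz02, hz03⟩ := sec_PwB99 X hI hp h1 (n := n) 0 0
    (by intro j; simp) (by intro i; simp) (by intro i s; simp)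
  refine ⟨⟨z0, hz0⟩, ?_⟩
  intro p y k hk hyk _
  rcases hk.eq_or_lt with hk0 | hk0
  · -- `k = 0`
    have hy : y ≠ 0 := by
      rcases hyk with h | h
      · exact h
      · exact absurd hk0.symm h
    obtain ⟨u, t, z, hlt, hz, -, -⟩ := key y 0 (Or.inl hy)
    refine ⟨u, z, hz, ?_⟩
    rw [← hk0]
    simpa using hlt
  · by_cases hp1 : p = p₁
    · subst hp1
      obtain ⟨u, t, z, hlt, hz, hz1, -⟩ := key y k hyk
      refine ⟨u, z, hz, ?_⟩
      rw [hz1]
      push_cast
      have h2 : k * ((n : ℝ) + t - n) = t * k := by ring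
      rw [h2]
      exact hlt
    · by_cases hp2 : p = p₂
      · subst hp2
        have : ∀ q, Nonempty (X.I q) := hI
        let s : X.Sel := fun q => Classical.arbitrary (X.I q)
        obtain ⟨u, t, z, hlt, hz, -, hz2⟩ := key (fun x => y x + k * (X.qB p₁ p s x : ℝ)) (-k)
          (Or.inr (neg_ne_zero.2 hk0.ne'))
        refine ⟨u, z, hz, ?_⟩
        have h3 : (z p : ℝ) ≤ n - t + ∑ x, (u x : ℝ) * (X.qB p₁ p s x : ℝ) := by
          have := hz2 s
          exact_mod_cast this
        have h4 : ∑ x, (u x : ℝ) * (y x + k * (X.qB p₁ p s x : ℝ)) =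
            ∑ x, (u x : ℝ) * y x + k * ∑ x, (u x : ℝ) * (X.qB p₁ p s x : ℝ) := by
          rw [Finset.mul_sum, ← Finset.sum_add_distrib]
          exact Finset.sum_congr rfl fun x _ => by ring
        rw [h4] at hlt
        have h5 : k * ((z p : ℝ) - n) ≤ k * (-t + ∑ x, (u x : ℝ) * (X.qB p₁ p s x : ℝ)) :=
          mul_le_mul_of_nonneg_left (by linarith) hk
        have h6 : k * (-(t : ℝ) + ∑ x, (u x : ℝ) * (X.qB p₁ p s x : ℝ)) =
          k * ∑ x, (u x : ℝ) * (X.qB p₁ p s x : ℝ) + t * (-k) := by ring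
        linarith
      · refine ⟨0, z0, hz0, ?_⟩
        rw [hz03 rfl p hp1 hp2]
        simp only [Pi.zero_apply, Int.cast_zero, zero_mul, Finset.sum_const_zero, zero_add, zero_sub]
        have := mul_pos hk0 hn0
        linarith

end Pool.Agent.CX
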