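import Pool.Agent.Helper45.CX.Span

/-!
# Project CX, block C2: `PW` from the goodness of the toric degeneration of the double cover
-/

namespace Pool.Agent.CX

variable {e r : ℕ}

/-- `(n + ⟨u, v⟩) / h` for `n = 2 m`, `u = 2 u'` -/
private def A_PwC4 (X : Dat e r) (m : ℕ) (u : Fin e → ℤ) (q : Fin r) (i : X.I q) : ℤ :=
  ((2 / X.h q i : ℕ) : ℤ) * ((m : ℤ) + ∑ x, u x * X.v q i x)

/-- the section of the weight `2 u` -/
private lemma sec_PwC4 (X : Dat e r) (hI : ∀ p, Nonempty (X.I p)) (p₀ : Fin r)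
    (h2 : ∀ q, q ≠ p₀ → ∀ i, X.h q i = 1 ∨ X.h q i = 2) {m : ℕ} (u : Fin e → ℤ) (t : ℤ)
    (ha : ∀ j, -(m : ℤ) ≤ ∑ x, u x * X.g j x)
    (hb : ∀ i, -(m : ℤ) ≤ ∑ x, u x * X.v p₀ i x + X.h p₀ i * t)
    (hc : ∀ i (s : X.Sel), -((m : ℤ) * (1 + X.h p₀ i * (2 - X.nC p₀ s))) ≤
      ∑ x, u x * (X.v p₀ i x + X.h p₀ i * X.qC p₀ s x) - X.h p₀ i * t) :
    ∃ z : Fin r → ℤ, X.Sec (2 * m) (fun x => 2 * u x) z ∧ z p₀ ≤ (2 * m : ℕ) + 2 * t ∧
      (u = 0 → 0 < m → ∀ q, q ≠ p₀ → z q < (2 * m : ℕ)) := by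
  classical
  -- the selection of the minima
  have hmin : ∀ q, ∃ i : X.I q, ∀ i', A_PwC4 X m u q i ≤ A_PwC4 X m u q i' := by
    intro q
    have := hI q
    obtain ⟨i, -, hi⟩ := Finset.exists_min_image (Finset.univ : Finset (X.I q))
      (fun i => A_PwC4 X m u q i) Finset.univ_nonempty
    exact ⟨i, fun i' => hi i' (Finset.mem_univ _)⟩
  choose s hs using hmin
  obtain ⟨s', -, hs'⟩ := Finset.exists_min_image (Finset.univ : Finset X.Sel)
    (fun s => ∑ x, u x * X.qC p₀ s x + (2 - (X.nC p₀ s : ℤ)) * m) ⟨s, Finset.mem_univ _⟩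
  obtain ⟨M, hM⟩ : ∃ M, M = ∑ x, u x * X.qC p₀ s' x + (2 - (X.nC p₀ s' : ℤ)) * m := ⟨_, rfl⟩
  have hMs : M ≤ ∑ x, u x * X.qC p₀ s x + (2 - (X.nC p₀ s : ℤ)) * m := by
    rw [hM]
    exact hs' s (Finset.mem_univ _)
  obtain ⟨τ, hτ⟩ : ∃ τ, τ = min t (M - t) := ⟨_, rfl⟩
  have hτ1 : τ ≤ t := by rw [hτ]; exact min_le_left _ _
  have hτ2 : τ ≤ M - t := by rw [hτ]; exact min_le_right _ _
  -- multiplication by `h`
  have hA : ∀ q, q ≠ p₀ → ∀ i, (X.h q i : ℤ) * A_PwC4 X m u q i =
      2 * ((m : ℤ) + ∑ x, u x * X.v q i x) := by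
    intro q hq i
    unfold A_PwC4
    rcases h2 q hq i with h | h
    · rw [h]; norm_num
    · rw [h]; norm_num
  let z : Fin r → ℤ := fun q => if q = p₀ then (2 * m : ℕ) + 2 * τ else
    (2 * m : ℕ) - A_PwC4 X m u q (s q)
  have hz1 : z p₀ = (2 * m : ℕ) + 2 * τ := by simp [z]
  have hz3 : ∀ q, q ≠ p₀ → z q = (2 * m : ℕ) - A_PwC4 X m u q (s q) := by
    intro q h1'
    simp [z, h1']
  have hu2 : ∀ w : Fin e → ℤ, ∑ x, 2 * u x * w x = 2 * ∑ x, u x * w x := by
    intro w
    rw [Finset.mul_sum]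
    exact Finset.sum_congr rfl fun x _ => by ring
  refine ⟨z, ⟨?_, ?_, ?_⟩, ?_, ?_⟩
  · intro j
    rw [hu2]
    have := ha j
    push_cast
    linarith
  · intro q i
    rw [hu2]
    by_cases hq1 : q = p₀
    · subst hq1
      rw [hz1]
      have h3 : -(m : ℤ) ≤ ∑ x, u x * X.v q i x + X.h q i * τ := by
        rw [hτ]
        rcases min_choice t (M - t) with h | h
        · rw [h]
          exact hb i
        · rw [h, hM]
          have h4 := hc i s'
          have h5 : ∑ x, u x * (X.v q i x + X.h q i * X.qC q s' x) =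
              ∑ x, u x * X.v q i x + X.h q i * ∑ x, u x * X.qC q s' x := by
            rw [Finset.mul_sum, ← Finset.sum_add_distrib]
            exact Finset.sum_congr rfl fun x _ => by ring
          rw [h5] at h4
          linarith
      have h6 : (X.h q i : ℤ) * (((2 * m : ℕ) : ℤ) + 2 * τ - (2 * m : ℕ)) = 2 * (X.h q i * τ) := by
        ring
      rw [h6]
      push_cast
      linarith
    · rw [hz3 q hq1]
      have h3 := hA q hq1 i
      have h4 : (X.h q i : ℤ) * A_PwC4 X m u q (s q) ≤ X.h q i * A_PwC4 X m u q i :=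
        mul_le_mul_of_nonneg_left (hs q i) (by positivity)
      have h5 : (X.h q i : ℤ) * (((2 * m : ℕ) : ℤ) - A_PwC4 X m u q (s q) - (2 * m : ℕ)) =
        -(X.h q i * A_PwC4 X m u q (s q)) := by ring
      rw [h5]
      push_cast
      linarith
  · -- the sum
    have h3 : ∀ q, z q = (2 * m : ℕ) + (if q = p₀ then 2 * τ else 0) -
        (if q = p₀ then 0 else A_PwC4 X m u q (s q)) := by
      intro q
      by_cases hq1 : q = p₀
      · subst hq1
        rw [hz1]
        simp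
      · rw [hz3 q hq1]
        simp [hq1]
    have h4 : ∑ q, (if q = p₀ then 0 else A_PwC4 X m u q (s q)) =
        (m : ℤ) * (2 * ((r : ℤ) - 1) - X.nC p₀ s) + ∑ x, u x * X.qC p₀ s x := by
      have h5 : ∑ x, u x * X.qC p₀ s x = ∑ q, if q = p₀ then 0 else
          ((2 / X.h q (s q) : ℕ) : ℤ) * ∑ x, u x * X.v q (s q) x := by
        unfold Dat.qC
        simp only [Finset.mul_sum]
        rw [Finset.sum_comm]
        refine Finset.sum_congr rfl fun q _ => ?_
        split_ifs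
        · simp
        · exact Finset.sum_congr rfl fun x _ => by ring
      have h6 : (2 * ((r : ℤ) - 1) - X.nC p₀ s) = ∑ q, if q = p₀ then 0 else
          ((2 / X.h q (s q) : ℕ) : ℤ) := by
        have h7 : (X.nC p₀ s : ℤ) = ∑ q, if q ≠ p₀ ∧ X.h q (s q) = 2 then 1 else 0 := by
          unfold Dat.nC
          rw [Finset.card_filter]
          push_cast
          rfl
        have h8 : 2 * ((r : ℤ) - 1) = ∑ q : Fin r, if q = p₀ then 0 else 2 := by
          have : ∀ q : Fin r, (if q = p₀ then (0 : ℤ) else 2) = 2 - if q = p₀ then 2 else 0 := by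
            intro q; split_ifs <;> norm_num
          rw [Finset.sum_congr rfl fun q _ => this q, Finset.sum_sub_distrib,
            Finset.sum_ite_eq' Finset.univ p₀, if_pos (Finset.mem_univ _)]
          simp
          ring
        rw [h7, h8, ← Finset.sum_sub_distrib]
        refine Finset.sum_congr rfl fun q _ => ?_
        by_cases hq1 : q = p₀
        · simp [hq1]
        · rcases h2 q hq1 (s q) with h | h
          · simp [hq1, h]
          · simp [hq1, h]
      rw [h5, h6, Finset.mul_sum, ← Finset.sum_add_distrib]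
      refine Finset.sum_congr rfl fun q _ => ?_
      split_ifs
      · simp
      · unfold A_PwC4
        ring
    have h5 : ∑ q, z q = (r : ℤ) * (2 * m) + 2 * τ - ((m : ℤ) * (2 * ((r : ℤ) - 1) - X.nC p₀ s) +
        ∑ x, u x * X.qC p₀ s x) := by
      rw [Finset.sum_congr rfl fun q _ => h3 q, Finset.sum_sub_distrib, Finset.sum_add_distrib,
        Finset.sum_ite_eq' Finset.univ p₀, if_pos (Finset.mem_univ _), h4]
      simp
    rw [h5]
    push_cast
    nlinarith
  · rw [hz1]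
    linarith
  · intro hu hm q hq
    rw [hz3 q hq]
    have h3 : 0 < A_PwC4 X m u q (s q) := by
      unfold A_PwC4
      rw [hu]
      have hm' : (0 : ℤ) < m := by exact_mod_cast hm
      rcases h2 q hq (s q) with h | h
      · rw [h]
        simp
        exact hm
      · rw [h]
        simp
        exact hm
    linarith

/-- **CX-C2** -/
theorem pwC (X : Dat e r) (hI : ∀ p, Nonempty (X.I p)) (p₀ : Fin r)
    (h2 : ∀ q, q ≠ p₀ → ∀ i, X.h q i = 1 ∨ X.h q i = 2) (hn2 : ∀ s, X.nC p₀ s ≤ 2) {δ : ℝ}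
    (hδ : 0 < δ) (hG : X.GoodC p₀ δ) {m : ℕ} (hm : ((e : ℝ) + 1) * 2 ^ (e + 5) / δ ≤ m) :
    X.PW (2 * m) := by
  classical
  have hm0 : (0 : ℝ) < m := lt_of_lt_of_le (by positivity) hm
  have hm0' : 0 < m := by exact_mod_cast hm0
  -- the functionals
  let V : X.J ⊕ (X.I p₀ ⊕ (X.I p₀ × X.Sel)) → (Fin e → ℝ) × ℝ := fun i => match i with
    | Sum.inl j => (fun x => (X.g j x : ℝ), 0)
    | Sum.inr (Sum.inl i) => (fun x => (X.v p₀ i x : ℝ), (X.h p₀ i : ℝ))
    | Sum.inr (Sum.inr i) => (fun x => (X.v p₀ i.1 x : ℝ) + X.h p₀ i.1 * (X.qC p₀ i.2 x : ℝ),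
        -(X.h p₀ i.1 : ℝ))
  let c : X.J ⊕ (X.I p₀ ⊕ (X.I p₀ × X.Sel)) → ℝ := fun i => match i with
    | Sum.inl _ => 1
    | Sum.inr (Sum.inl _) => 1
    | Sum.inr (Sum.inr i) => 1 + X.h p₀ i.1 * (2 - (X.nC p₀ i.2 : ℝ))
  have hc : ∀ i, 0 < c i := by
    rintro (j | i | i)
    · exact one_pos
    · exact one_pos
    · have h3 : (X.nC p₀ i.2 : ℝ) ≤ 2 := by exact_mod_cast hn2 i.2
      have h4 : (0 : ℝ) ≤ X.h p₀ i.1 * (2 - (X.nC p₀ i.2 : ℝ)) :=
        mul_nonneg (by positivity) (by linarith)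
      change 0 < 1 + X.h p₀ i.1 * (2 - (X.nC p₀ i.2 : ℝ))
      linarith
  have key : ∀ (y : Fin e → ℝ) (k : ℝ), (y ≠ 0 ∨ k ≠ 0) →
      ∃ (u : Fin e → ℤ) (t : ℤ) (z : Fin r → ℤ), ∑ x, (u x : ℝ) * y x + (t : ℝ) * k < 0 ∧
        X.Sec (2 * m) (fun x => 2 * u x) z ∧ z p₀ ≤ (2 * m : ℕ) + 2 * t := by
    intro y k hyk
    obtain ⟨u, t, hlt, hV⟩ := span1 V c hc hδ (by
      intro w k' hw a ha hwa hka
      have hg := hG w k' hw (fun j => a (Sum.inl j)) (fun i => a (Sum.inr (Sum.inl i)))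
        (fun i s => a (Sum.inr (Sum.inr (i, s)))) (fun j => ha _) (fun i => ha _) (fun i s => ha _)
        (by
          intro x
          rw [hwa x]
          simp only [Fintype.sum_sum_type, Fintype.sum_prod_type, V]
          ring)
        (by
          rw [hka]
          simp only [Fintype.sum_sum_type, Fintype.sum_prod_type, V]
          simp only [mul_zero, Finset.sum_const_zero, zero_add, mul_neg, Finset.sum_neg_distrib]
          ring)
      refine hg.trans (le_of_eq ?_)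
      simp only [Fintype.sum_sum_type, Fintype.sum_prod_type, mul_one, c]
      ring) y k hyk
    have hV' : ∀ i, -((m : ℝ) * c i) ≤ ∑ x, (u x : ℝ) * (V i).1 x + (t : ℝ) * (V i).2 := by
      intro i
      refine le_trans ?_ (hV i)
      have := mul_le_mul_of_nonneg_right hm (hc i).le
      linarith
    obtain ⟨z, hz, hz1, -⟩ := sec_PwC4 X hI p₀ h2 (m := m) u t
      (by
        intro j
        have := hV' (Sum.inl j)
        simp only [V, c, mul_zero, add_zero, mul_one] at this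
        exact_mod_cast this)
      (by
        intro i
        have := hV' (Sum.inr (Sum.inl i))
        simp only [V, c, mul_one] at this
        have h2 : -(m : ℝ) ≤ ((∑ x, u x * X.v p₀ i x + X.h p₀ i * t : ℤ) : ℝ) := by
          push_cast
          rw [mul_comm (X.h p₀ i : ℝ) (t : ℝ)]
          exact this
        exact_mod_cast h2)
      (by
        intro i s
        have := hV' (Sum.inr (Sum.inr (i, s)))
        simp only [V, c] at this
        have h2 : ((-((m : ℤ) * (1 + X.h p₀ i * (2 - X.nC p₀ s))) : ℤ) : ℝ) ≤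
            ((∑ x, u x * (X.v p₀ i x + X.h p₀ i * X.qC p₀ s x) - X.h p₀ i * t : ℤ) : ℝ) := by
          push_cast
          linarith
        exact_mod_cast h2)
    exact ⟨u, t, z, hlt, hz, hz1⟩
  -- the zero section
  obtain ⟨z0, hz0, hz01, hz03⟩ := sec_PwC4 X hI p₀ h2 (m := m) 0 0
    (by intro j; simp) (by intro i; simp) (by
      intro i s
      have h3 : (X.nC p₀ s : ℤ) ≤ 2 := by exact_mod_cast hn2 s
      have h4 : (0 : ℤ) ≤ (m : ℤ) * (1 + X.h p₀ i * (2 - X.nC p₀ s)) := by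
        apply mul_nonneg (by positivity)
        have : (0 : ℤ) ≤ X.h p₀ i * (2 - (X.nC p₀ s : ℤ)) :=
          mul_nonneg (by positivity) (by linarith)
        linarith
      simp only [Pi.zero_apply, zero_mul, Finset.sum_const_zero, mul_zero, sub_zero]
      linarith)
  have e0 : (fun x : Fin e => 2 * (0 : Fin e → ℤ) x) = 0 := by ext x; simp
  rw [e0] at hz0
  refine ⟨⟨z0, hz0⟩, ?_⟩
  intro p y k hk hyk _
  rcases hk.eq_or_lt with hk0 | hk0
  · -- `k = 0`
    have hy : y ≠ 0 := by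
      rcases hyk with h | h
      · exact h
      · exact absurd hk0.symm h
    obtain ⟨u, t, z, hlt, hz, -⟩ := key y 0 (Or.inl hy)
    refine ⟨_, z, hz, ?_⟩
    rw [← hk0]
    have h4 : ∑ x, ((2 * u x : ℤ) : ℝ) * y x = 2 * ∑ x, (u x : ℝ) * y x := by
      rw [Finset.mul_sum]
      exact Finset.sum_congr rfl fun x _ => by push_cast; ring
    rw [h4]
    simp only [mul_zero, add_zero] at hlt
    linarith
  · by_cases hp1 : p = p₀
    · subst hp1
      obtain ⟨u, t, z, hlt, hz, hz1⟩ := key y k hyk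
      refine ⟨_, z, hz, ?_⟩
      have h4 : ∑ x, ((2 * u x : ℤ) : ℝ) * y x = 2 * ∑ x, (u x : ℝ) * y x := by
        rw [Finset.mul_sum]
        exact Finset.sum_congr rfl fun x _ => by push_cast; ring
      rw [h4]
      have h3 : (z p : ℝ) ≤ (2 * m : ℕ) + 2 * t := by exact_mod_cast hz1
      have h5 : k * ((z p : ℝ) - (2 * m : ℕ)) ≤ k * (2 * t) :=
        mul_le_mul_of_nonneg_left (by linarith) hk
      linarith
    · refine ⟨0, z0, hz0, ?_⟩
      have h3 : (z0 p : ℝ) < (2 * m : ℕ) := by exact_mod_cast hz03 rfl hm0' p hp1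
      have h5 : k * ((z0 p : ℝ) - (2 * m : ℕ)) < 0 := mul_neg_of_pos_of_neg hk0 (by linarith)
      simp only [Pi.zero_apply, Int.cast_zero, zero_mul, Finset.sum_const_zero, zero_add]
      exact h5

end Pool.Agent.CX
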