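import Pool.Agent.Helper45.CX.Defs
import Pool.Agent.Helper45.CX.Kap
import Pool.Agent.Helper45.CX.Cpt
import Pool.Agent.Helper45.CX.PwA
import Pool.Agent.Helper45.CX.Pw0
import Pool.Agent.Helper45.CX.Cases
import Pool.Agent.Helper45.CX.PwB
import Pool.Agent.Helper45.CX.PwC
import Pool.Agent.Helper45.CX.GoodB
import Pool.Agent.Helper45.CX.GoodC

/-!
# Project CX: the assembly
-/

namespace Pool.Agent.CX

variable {e r : ℕ}

/-- the main lemma -/
theorem core (X : Dat e r) (hr : 2 ≤ r) {ε : ℝ} (hε : 0 < ε) (hε1 : ε ≤ 1) (hE : X.EE ε)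
    {n : ℕ} (h60 : 60 ∣ n) (hn : ((e : ℝ) + 1) * (e + 2) * 2 ^ (e + 8) / ε ≤ n) : X.PW n := by
  classical
  have he0 : (0 : ℝ) ≤ e := Nat.cast_nonneg _
  have hp8 : (2 : ℝ) ^ (e + 8) = 8 * 2 ^ (e + 5) := by rw [show e + 8 = e + 5 + 3 by ring, pow_add]; ring
  have hp4 : (2 : ℝ) ^ (e + 5) = 2 * 2 ^ (e + 4) := by rw [show e + 5 = e + 4 + 1 by ring, pow_succ]; ring
  have hpp : (0 : ℝ) < 2 ^ (e + 4) := by positivity
  rw [div_le_iff₀ hε] at hn
  by_cases hI : ∀ p, Nonempty (X.I p)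
  swap
  · push Not at hI
    obtain ⟨p', hp'⟩ := hI
    refine pw0 X hr (p' := p') hp' hε hE ?_
    rw [div_le_iff₀ hε]
    refine le_trans ?_ hn
    rw [hp8, hp4]
    nlinarith [mul_nonneg he0 he0, mul_nonneg he0 hpp.le, mul_nonneg (mul_nonneg he0 he0) hpp.le]
  -- the maxima
  have hmax : ∀ p, ∃ i, ∀ j, X.h p j ≤ X.h p i := fun p => by
    have := hI p
    obtain ⟨i, hi⟩ := Finite.exists_max (X.h p)
    exact ⟨i, hi⟩
  choose S hS using hmax
  have hk := fun s => kap_nonneg X (by omega) hε hE s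
  have hsum : ∑ p, (1 - 1 / (X.h p (S p) : ℝ)) ≤ 2 := by
    have := (hk S).1
    unfold Dat.kap at this
    rw [Finset.sum_sub_distrib]
    simp only [Finset.sum_const, Finset.card_univ, Fintype.card_fin, nsmul_eq_mul, mul_one]
    linarith
  rcases cases hr (fun p => X.h p (S p)) (fun p => X.h_pos p _) hsum with h | ⟨p₁, p₂, hp, h⟩ |
    ⟨p₀, h, h'⟩
  · obtain ⟨m, rfl⟩ := h60
    have hnr : ((60 * m : ℕ) : ℝ) = 60 * m := by push_cast; ring
    rw [hnr] at hn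
    have hm : (e : ℝ) * 2 ^ (e + 4) ≤ m * ε := by
      have h3 : (60 : ℝ) * (e * 2 ^ (e + 4)) ≤ ((e : ℝ) + 1) * (e + 2) * 2 ^ (e + 8) := by
        rw [hp8, hp4]
        have h4 : (60 : ℝ) * e ≤ 16 * (((e : ℝ) + 1) * (e + 2)) := by
          nlinarith [sq_nonneg ((e : ℝ) - 1)]
        nlinarith
      nlinarith
    have hm1 : 1 ≤ m := by
      rcases Nat.eq_zero_or_pos m with h3 | h3
      · exfalso
        rw [h3] at hn
        have : (0 : ℝ) < ((e : ℝ) + 1) * (e + 2) * 2 ^ (e + 8) := by positivity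
        simp at hn
        linarith
      · exact h3
    exact pwA X (by omega) hI (fun p i => (hS p i).trans (h p)) hε hE hk hm1
      (by rw [div_le_iff₀ hε]; exact hm)
  · have h1 : ∀ q, q ≠ p₁ → q ≠ p₂ → ∀ i, X.h q i = 1 := fun q h3 h4 i =>
      le_antisymm ((hS q i).trans (h q h3 h4).le) (X.h_pos q i)
    have hδ : 0 < ε / (2 * (e : ℝ) + 3) := by positivity
    have hnB : ((e : ℝ) + 1) * 2 ^ (e + 5) / (ε / (2 * (e : ℝ) + 3)) ≤ n := by
      rw [div_div_eq_mul_div, div_le_iff₀ hε]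
      refine le_trans ?_ hn
      rw [hp8]
      have h3 : (0 : ℝ) < 2 ^ (e + 5) := by positivity
      have h4 : ((e : ℝ) + 1) * (2 * e + 3) ≤ 8 * (((e : ℝ) + 1) * (e + 2)) := by nlinarith
      nlinarith
    rcases goodB X hε hE hp h1 with hG | hG
    · exact pwB X hI hp h1 hδ hG hnB
    · exact pwB X hI hp.symm (fun q h3 h4 => h1 q h4 h3) hδ hG hnB
  · have h2 : ∀ q, q ≠ p₀ → ∀ i, X.h q i = 1 ∨ X.h q i = 2 := fun q h3 i => by
      have h4 := (hS q i).trans (h q h3)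
      have h5 := X.h_pos q i
      omega
    have hn2 : ∀ s, X.nC p₀ s ≤ 2 := fun s => by
      refine le_trans (Finset.card_le_card ?_) h'
      intro q hq
      simp only [Finset.mem_filter, Finset.mem_univ, true_and] at hq ⊢
      refine ⟨hq.1, le_antisymm (h q hq.1) ?_⟩
      have := hS q (s q)
      rw [hq.2] at this
      exact this
    obtain ⟨m, rfl⟩ : 2 ∣ n := dvd_trans (by norm_num) h60
    have hnr : ((2 * m : ℕ) : ℝ) = 2 * m := by push_cast; ring
    rw [hnr] at hn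
    have hδ : 0 < ε / (2 * (e : ℝ) + 4) := by positivity
    refine pwC X hI p₀ h2 hn2 hδ (goodC X hε hε1 hE p₀ h2 hn2) ?_
    rw [div_div_eq_mul_div, div_le_iff₀ hε]
    have h3 : (0 : ℝ) < 2 ^ (e + 5) := by positivity
    rw [hp8] at hn
    have h4 : ((e : ℝ) + 1) * (2 * e + 4) * 2 ≤ 8 * (((e : ℝ) + 1) * (e + 2)) := by nlinarith
    nlinarith

end Pool.Agent.CX
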