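import Mathlib

/-!
# Project CX: klt complements for T-varieties of complexity one (MP_bca9b8_ag)

`Dat e r`: the torus invariant prime divisors of a variety of complexity one over `P^1` with the special points
`p : Fin r`.  Horizontal divisors: vectors `g j ∈ N = ℤ^e`.  Vertical divisors over `p`: pairs
`(v p i, h p i) ∈ N × ℤ_{≥ 1}`.  A section of `-n K` is given by its weight `u` and by the orders `z p` at
the special points; with `t p = z p - n` the conditions are `⟨u, g j⟩ ≥ -n`, `⟨u, v p i⟩ + h p i * t p ≥ -n` and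
`∑ (t p + n) ≤ 2 n`.
-/

namespace Pool.Agent.CX

/-- the divisors -/
structure Dat (e r : ℕ) where
  /-- horizontal divisors -/
  J : Type
  fJ : Fintype J
  g : J → Fin e → ℤ
  /-- vertical divisors over `p` -/
  I : Fin r → Type
  fI : ∀ p, Fintype (I p)
  v : ∀ p, I p → Fin e → ℤ
  h : ∀ p, I p → ℕ
  h_pos : ∀ p i, 1 ≤ h p i

attribute [instance] Dat.fJ Dat.fI

variable {e r : ℕ}

/-- `a, b, l` is a decomposition of the vector `(w, k)` over the point `p`. -/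
def Dat.Dec (X : Dat e r) (p : Fin r) (w : Fin e → ℝ) (k : ℝ) (a : X.J → ℝ)
    (b : ∀ q, X.I q → ℝ) (l : ℝ) : Prop :=
  (∀ j, 0 ≤ a j) ∧ (∀ q i, 0 ≤ b q i) ∧ 0 ≤ l ∧
  (∀ x, w x = ∑ j, a j * (X.g j x : ℝ) + ∑ q, ∑ i, b q i * (X.v q i x : ℝ)) ∧
  ∀ q, ∑ i, b q i * (X.h q i : ℝ) = l + if q = p then k else 0

/-- its cost -/
def Dat.cost (X : Dat e r) (a : X.J → ℝ) (b : ∀ q, X.I q → ℝ) (l : ℝ) : ℝ :=
  ∑ j, a j + ∑ q, ∑ i, b q i + (2 - r) * l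

/-- property (E): all lattice vectors over all points have cost at least `ε` -/
def Dat.EE (X : Dat e r) (ε : ℝ) : Prop :=
  ∀ (p : Fin r) (w : Fin e → ℤ) (k : ℕ), (w ≠ 0 ∨ k ≠ 0) →
    ∀ (a : X.J → ℝ) (b : ∀ q, X.I q → ℝ) (l : ℝ),
      X.Dec p (fun x => (w x : ℝ)) k a b l → ε ≤ X.cost a b l

/-- sections of `-n K`: weight `u`, orders `z` -/
def Dat.Sec (X : Dat e r) (n : ℕ) (u : Fin e → ℤ) (z : Fin r → ℤ) : Prop :=
  (∀ j, -(n : ℤ) ≤ ∑ x, u x * X.g j x) ∧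
  (∀ p i, -(n : ℤ) ≤ ∑ x, u x * X.v p i x + X.h p i * (z p - n)) ∧
  ∑ p, z p ≤ 2 * n

/-- for every direction over every point there is a section which is negative on it (and there is a section
of weight zero) -/
def Dat.PW (X : Dat e r) (n : ℕ) : Prop :=
  (∃ z, X.Sec n 0 z) ∧
  ∀ (p : Fin r) (y : Fin e → ℝ) (k : ℝ), 0 ≤ k → (y ≠ 0 ∨ k ≠ 0) → (IsEmpty (X.I p) → k = 0) →
    ∃ (u : Fin e → ℤ) (z : Fin r → ℤ), X.Sec n u z ∧
      ∑ x, (u x : ℝ) * y x + k * ((z p : ℝ) - n) < 0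

/-- a choice of a vertical divisor over every point -/
abbrev Dat.Sel (X : Dat e r) : Type := ∀ q, X.I q

/-- `κ(s) = 2 - ∑ (1 - 1 / h)` -/
noncomputable def Dat.kap (X : Dat e r) (s : X.Sel) : ℝ :=
  2 - r + ∑ q, 1 / (X.h q (s q) : ℝ)

/-- `b(s) = ∑ v / h` -/
noncomputable def Dat.bb (X : Dat e r) (s : X.Sel) (x : Fin e) : ℝ :=
  ∑ q, (X.v q (s q) x : ℝ) / (X.h q (s q) : ℝ)

/-! ## Case B: at most two points with multiplicities -/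

/-- the sum of the vectors over the points different from `p₁`, `p₂` -/
def Dat.qB (X : Dat e r) (p₁ p₂ : Fin r) (s : X.Sel) (x : Fin e) : ℤ :=
  ∑ q, if q = p₁ ∨ q = p₂ then 0 else X.v q (s q) x

/-- the toric degeneration for `p₁ | p₂ + the rest` is `δ`-lc -/
def Dat.GoodB (X : Dat e r) (p₁ p₂ : Fin r) (δ : ℝ) : Prop :=
  ∀ (w : Fin e → ℤ) (k : ℤ), (w ≠ 0 ∨ k ≠ 0) →
    ∀ (a : X.J → ℝ) (α : X.I p₁ → ℝ) (β : X.I p₂ → X.Sel → ℝ),
      (∀ j, 0 ≤ a j) → (∀ i, 0 ≤ α i) → (∀ i s, 0 ≤ β i s) →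
      (∀ x, (w x : ℝ) = ∑ j, a j * (X.g j x : ℝ) + ∑ i, α i * (X.v p₁ i x : ℝ) +
        ∑ i, ∑ s, β i s * ((X.v p₂ i x : ℝ) + X.h p₂ i * (X.qB p₁ p₂ s x : ℝ))) →
      ((k : ℝ) = ∑ i, α i * X.h p₁ i - ∑ i, ∑ s, β i s * X.h p₂ i) →
      δ ≤ ∑ j, a j + ∑ i, α i + ∑ i, ∑ s, β i s

/-! ## Case C: one point with arbitrary multiplicities, the others one or two -/

/-- twice the sum of the `v / h` over the points different from `p₀` -/
def Dat.qC (X : Dat e r) (p₀ : Fin r) (s : X.Sel) (x : Fin e) : ℤ :=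
  ∑ q, if q = p₀ then 0 else ((2 / X.h q (s q) : ℕ) : ℤ) * X.v q (s q) x

/-- the number of points different from `p₀` with multiplicity two -/
def Dat.nC (X : Dat e r) (p₀ : Fin r) (s : X.Sel) : ℕ :=
  (Finset.univ.filter fun q => q ≠ p₀ ∧ X.h q (s q) = 2).card

/-- the toric degeneration of the double cover is `δ`-lc -/
def Dat.GoodC (X : Dat e r) (p₀ : Fin r) (δ : ℝ) : Prop :=
  ∀ (w : Fin e → ℤ) (k : ℤ), (w ≠ 0 ∨ k ≠ 0) →
    ∀ (a : X.J → ℝ) (α : X.I p₀ → ℝ) (β : X.I p₀ → X.Sel → ℝ),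
      (∀ j, 0 ≤ a j) → (∀ i, 0 ≤ α i) → (∀ i s, 0 ≤ β i s) →
      (∀ x, (w x : ℝ) = ∑ j, a j * (X.g j x : ℝ) + ∑ i, α i * (X.v p₀ i x : ℝ) +
        ∑ i, ∑ s, β i s * ((X.v p₀ i x : ℝ) + X.h p₀ i * (X.qC p₀ s x : ℝ))) →
      ((k : ℝ) = ∑ i, α i * X.h p₀ i - ∑ i, ∑ s, β i s * X.h p₀ i) →
      δ ≤ ∑ j, a j + ∑ i, α i + ∑ i, ∑ s, β i s * (1 + X.h p₀ i * (2 - (X.nC p₀ s : ℝ)))

end Pool.Agent.CX
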