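import Pool.Agent.Helper45.CX.Defs

/-!
# Project CX: the blocks

Every block is one theorem.  Put the proof of `foo_stub` in `Pool/Agent/Helper45/CX/<block>.lean` under the name
`foo` (namespace `Pool.Agent.CX`, import `Pool.Agent.Helper45.CX.Defs` and what you need, auxiliary lemmas with
the block name as suffix).  All blocks are independent of each other.
-/

namespace Pool.Agent.CX

variable {e r : ℕ}

/-- **CX-S1** (file `Span.lean`, both theorems).  Apply `Helper79.KLT.pos_span` (`Helper79/KLT/Pos.lean`; see its use in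
`Results/MP_bca9b8_ag/SphericalContractions.lean`) to `M = (Fin e → ℤ) × ℤ` (finrank `e + 1`), the functionals
`(u, t) ↦ (∑ x, u x * (V i).1 x + t * (V i).2) / c i`, and `v0 = (u, t) ↦ ∑ x, u x * y x + t * s`.  Note
`(e + 1) * 2 ^ (e + 5)` is the constant `k * 2 ^ (k + 4)` for `k = e + 1`. -/
theorem span1_stub {ι : Type} [Fintype ι] (V : ι → (Fin e → ℝ) × ℝ) (c : ι → ℝ) (hc : ∀ i, 0 < c i)
    {δ : ℝ} (hδ : 0 < δ)
    (hV : ∀ (w : Fin e → ℤ) (k : ℤ), (w ≠ 0 ∨ k ≠ 0) → ∀ a : ι → ℝ, (∀ i, 0 ≤ a i) →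
      (∀ x, (w x : ℝ) = ∑ i, a i * (V i).1 x) → ((k : ℝ) = ∑ i, a i * (V i).2) →
      δ ≤ ∑ i, a i * c i)
    (y : Fin e → ℝ) (s : ℝ) (hy : y ≠ 0 ∨ s ≠ 0) :
    ∃ (u : Fin e → ℤ) (t : ℤ), ∑ x, (u x : ℝ) * y x + (t : ℝ) * s < 0 ∧
      ∀ i, -(((e : ℝ) + 1) * 2 ^ (e + 5) / δ * c i) ≤ ∑ x, (u x : ℝ) * (V i).1 x + (t : ℝ) * (V i).2 := by
  sorry

/-- **CX-S1**, second theorem: the same with `M = Fin e → ℤ`. -/
theorem span0_stub {ι : Type} [Fintype ι] (V : ι → Fin e → ℝ) (c : ι → ℝ) (hc : ∀ i, 0 < c i)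
    {δ : ℝ} (hδ : 0 < δ)
    (hV : ∀ w : Fin e → ℤ, w ≠ 0 → ∀ a : ι → ℝ, (∀ i, 0 ≤ a i) →
      (∀ x, (w x : ℝ) = ∑ i, a i * V i x) → δ ≤ ∑ i, a i * c i)
    (y : Fin e → ℝ) (hy : y ≠ 0) :
    ∃ u : Fin e → ℤ, ∑ x, (u x : ℝ) * y x < 0 ∧
      ∀ i, -((e : ℝ) * 2 ^ (e + 4) / δ * c i) ≤ ∑ x, (u x : ℝ) * V i x := by
  sorry

/-- **CX-S2** (file `Floor.lean`).  Caratheodory and rounding down.  Let `R = ∑ μ`.  Among the `ν ≥ 0` with `∑ ν = R`,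
`∑ ν q = ∑ μ q` there is one with at most `e + 1` nonzero values (Caratheodory for the point `(1/R) ∑ μ q` of the
convex hull of the `q i`, Mathlib `convexHull_eq_union`, or: minimal support and
`Module.exists_nontrivial_relation_sum_zero_of_finrank_succ_lt_card`; for `R = 0` trivial).  Then
`∑ ⌊ν i⌋ > R - (e + 1) ≥ j - 1`, so there are naturals `c i ≤ ⌊ν i⌋` with `∑ c i = j`; `μ' = ν - c`. -/
theorem exists_floor_stub {ι : Type} [Fintype ι] (q : ι → Fin e → ℤ) (μ : ι → ℝ)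
    (hμ : ∀ i, 0 ≤ μ i) (j : ℕ) (hj : (j : ℝ) + e ≤ ∑ i, μ i) :
    ∃ (c : ι → ℕ) (μ' : ι → ℝ), ∑ i, c i = j ∧ (∀ i, 0 ≤ μ' i) ∧
      ∑ i, μ' i = ∑ i, μ i - j ∧
      ∀ x, ∑ i, μ i * (q i x : ℝ) = ∑ i, (c i : ℝ) * (q i x : ℝ) + ∑ i, μ' i * (q i x : ℝ) := by
  sorry

/-- **CX-K** (file `Kap.lean`).  Let `p = ⟨0, hr⟩`.  (1) For every real `t ≥ 0`: `w = v p (s p)`, `k = h p (s p)` has the
decomposition `a = 0`, `b q i = (if i = s q then t / h q i else 0) + (if q = p ∧ i = s q then 1 else 0)` minus the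
vector `t * bb`: if `bb s = 0` this is a decomposition of `(w, k)` with `l = t` and cost `1 + t * kap s`, so
`kap s ≥ 0`.  (2) In general let `K = ∏ q, h q (s q)`, `w x = ∑ q, v q (s q) x * (K / h q (s q))` (exact division, so
`w x = K * bb s x`), `k = 0`, `b q i = if i = s q then K / h q i else 0`, `l = K`: a decomposition of `(w, 0)` with
cost `K * kap s`; if `bb s ≠ 0` then `w ≠ 0`, so `ε ≤ K * kap s` and `kap s > 0`.  (Use `Function.update` or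
`Finset.sum_ite_eq` after `classical`; equality of dependent indices only inside one `I q`.) -/
theorem kap_nonneg_stub (X : Dat e r) (hr : 0 < r) {ε : ℝ} (hε : 0 < ε) (hE : X.EE ε) (s : X.Sel) :
    0 ≤ X.kap s ∧ (X.kap s = 0 → ∀ x, X.bb s x = 0) := by
  sorry

/-- **CX-A** (file `PwA.lean`).  All multiplicities at most six.  `PW (60 m)`.  For `u' ∈ ℤ^e` put `u = 60 u'`, `n = 60 m`,
`z p = n - min_i (n + ⟨u, v p i⟩) / h p i` (exact division because `h ∣ 60`).  Then the first two conditions of `Sec`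
hold if `⟨u', g j⟩ ≥ -m`, and `∑ z p = r n - (n + ...)`: with `s` the selection of the minima
`∑ z p = r n - n ∑ 1/h - ⟨u, bb s⟩ = 2 n - (n kap s + ⟨u, bb s⟩) ≤ 2 n` as soon as `⟨u', bb s⟩ ≥ -m kap s`.
Zero section: `u' = 0` (`kap s ≥ 0`).  For `k > 0` use it: `z p - n = -n / max h < 0`.  For `k = 0`, `y ≠ 0` apply
`span0` with the functionals `g j` (`c = 1`) and `bb s` (`c = kap s`) for the selections with `kap s > 0` (for
`kap s = 0` one has `bb s = 0`), `δ = ε`: hypothesis: `w = ∑ a_j g_j + ∑_s λ_s bb s` is a decomposition of `(w, 0)` over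
any `p` with `b q i = ∑_{s q = i} λ_s / h q i`, `l = ∑ λ_s`, of cost `∑ a_j + ∑ λ_s kap s`. -/
theorem pwA_stub (X : Dat e r) (hr : 0 < r) (hI : ∀ p, Nonempty (X.I p))
    (h6 : ∀ p i, X.h p i ≤ 6) {ε : ℝ} (hε : 0 < ε) (hE : X.EE ε)
    (hk : ∀ s, 0 ≤ X.kap s ∧ (X.kap s = 0 → ∀ x, X.bb s x = 0))
    {m : ℕ} (hm1 : 1 ≤ m) (hm : (e : ℝ) * 2 ^ (e + 4) / ε ≤ m) : X.PW (60 * m) := by
  sorry

/-- **CX-B1** (file `GoodB.lean`).  Suppose both are not good, with the bad vectors `(w₂, k₂)` for `p₁ | p₂` and `(w₁, k₁)`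
for `p₂ | p₁`.  If `k₂ ≥ 0` the decomposition is a decomposition of `(w₂, k₂)` over `p₁` in the sense of `Dec`
(`b p₁ = α`, `b p₂ i = ∑_s β i s`, `b q i = ∑_{i', s, s q = i} β i' s * h p₂ i'` for the other `q`, `l = ∑ β h`) of the same
cost: contradiction to (E).  So `k₂ = -h₂`, `h₂ ≥ 1`, and `k₁ = -h₁`, `h₁ ≥ 1`.  Take `m₁ = e + 1` and `m₂ = e + 1` or
`e + 2` such that `m₁ h₁ ≠ m₂ h₂`.  In `m₁ (w₁, k₁) + m₂ (w₂, k₂)` the selections `s` appear with masses `μ s` (`∑_i β i s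
h`), `∑ μ = R`; the mass on `p₁` is `H₁ = R - m₂ h₂ ≥ m₁ h₁`, the one on `p₂` is `H₂ = R - m₁ h₁ ≥ m₂ h₂`.  Let
`j = max (m₁ h₁) (m₂ h₂)`; `R - j = min (H₁, H₂) ≥ e + 1`, so by `exists_floor` (for the vectors `qB p₁ p₂ s = qB p₂ p₁
s`) one can subtract `y = ∑ c_s q_s`, `∑ c_s = j`: `m₁ w₁ + m₂ w₂ - y` has a decomposition over `p₁` (if `m₁ h₁ > m₂ h₂`,
height `m₁ h₁ - m₂ h₂ > 0`) or over `p₂` (height `m₂ h₂ - m₁ h₁`) with `l = R - j`, `b q i = ∑_{s q = i} μ' s`, of cost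
less than `(m₁ + m₂) ε / (2 e + 3) ≤ ε`: contradiction to (E). -/
theorem goodB_stub (X : Dat e r) {ε : ℝ} (hε : 0 < ε) (hE : X.EE ε) {p₁ p₂ : Fin r} (hp : p₁ ≠ p₂)
    (h1 : ∀ q, q ≠ p₁ → q ≠ p₂ → ∀ i, X.h q i = 1) :
    X.GoodB p₁ p₂ (ε / (2 * e + 3)) ∨ X.GoodB p₂ p₁ (ε / (2 * e + 3)) := by
  sorry

/-- **CX-B2** (file `PwB.lean`).  For `(u, t) ∈ ℤ^e × ℤ` put `z p₁ = n + t`, `z q = -min_i ⟨u, v q i⟩` for `q ≠ p₁, p₂` and
`z p₂ = n - t + ∑_{q ≠ p₁, p₂} min_i ⟨u, v q i⟩`, so `∑ z = 2 n`.  It is a section if `⟨u, g j⟩ ≥ -n`,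
`⟨u, v p₁ i⟩ + h t ≥ -n` and `⟨u, v p₂ i + h qB s⟩ - h t ≥ -n` for all `i`, `s` (take for `s` the selection of the minima).
`(0, 0)` gives `z = (n, n, 0, ..)`: the zero section, and it settles `k > 0` over `q ≠ p₁, p₂`.  `span1` for these
functionals (`c = 1`, `δ`) gives: for every `(y, k) ≠ 0` some `(u, t)` with `⟨u, y⟩ + k t < 0`: this settles `p₁` and all
`p` with `k = 0`; for `p₂`, `k > 0`, apply it to `(y + k qB s, -k)` for any `s`: `z p₂ - n ≤ ⟨u, qB s⟩ - t`. -/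
theorem pwB_stub (X : Dat e r) (hI : ∀ p, Nonempty (X.I p)) {p₁ p₂ : Fin r} (hp : p₁ ≠ p₂)
    (h1 : ∀ q, q ≠ p₁ → q ≠ p₂ → ∀ i, X.h q i = 1) {δ : ℝ} (hδ : 0 < δ) (hG : X.GoodB p₁ p₂ δ)
    {n : ℕ} (hn : ((e : ℝ) + 1) * 2 ^ (e + 5) / δ ≤ n) : X.PW n := by
  sorry

/-- **CX-C1** (file `GoodC.lean`).  Write `κ s = 2 - nC s ∈ {0, 1, 2}`, `q_s = qC s`.  For `q ≠ p₀` one has
`∑_{q ≠ p₀} 1 / h q (s q) = r - 1 - nC s / 2`, so `2 (2 - r + ∑_{q ≠ p₀} 1/h) = κ s`.  A family `(a, b₀ : I p₀ → ℝ, μ : Sel →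
ℝ)` gives the decomposition over `p₀` with `b p₀ = b₀`, `b q i = ∑_{s q = i} 2 μ s / h q i` (`q ≠ p₀`), `l = 2 ∑ μ`, of the
vector `∑ a g + ∑ b₀ v + ∑ μ s q_s`, height `∑ b₀ h - 2 ∑ μ`, cost `∑ a + ∑ b₀ + ∑ μ s κ s`.  A decomposition in the sense
of `GoodC` gives `b₀ i = α i + ∑_s β i s`, `μ s = ∑_i β i s h p₀ i`, same vector, height and cost.  If `k ≥ 0`: (E).  Let
`k = -h₀ < 0` and cost `< δ = ε / (2 e + 4)`; `m = 2 K`, `K = e + 2`: multiply by `m`.  `∑ μ ≥ m h₀` after multiplication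
(since `∑ β h = h₀ + ∑ α h`), the `s` with `κ s ≥ 1` have total mass at most the cost `< m δ ≤ 1`.  So the `s` with
`κ s = 0` have mass `≥ 2 K h₀ - 1 ≥ (K h₀ + 1) + e`: `exists_floor` for them with `j = K h₀ + 1`: the vector
`m w - ∑ c_s q_s` has over `p₀` the height `-m h₀ + 2 j = 2 > 0` and cost `< m δ = ε`: contradiction to (E). -/
theorem goodC_stub (X : Dat e r) {ε : ℝ} (hε : 0 < ε) (hε1 : ε ≤ 1) (hE : X.EE ε) (p₀ : Fin r)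
    (h2 : ∀ q, q ≠ p₀ → ∀ i, X.h q i = 1 ∨ X.h q i = 2) (hn2 : ∀ s, X.nC p₀ s ≤ 2) :
    X.GoodC p₀ (ε / (2 * e + 4)) := by
  sorry

/-- **CX-C2** (file `PwC.lean`).  `n = 2 m`.  For `(u', t') ∈ ℤ^e × ℤ` put `u = 2 u'`,
`τ = 2 min (t', min_s (⟨u', qC s⟩ + (2 - nC s) m) - t')`, `z p₀ = n + τ`, `z q = n - min_i (n + ⟨u, v q i⟩) / h q i` for
`q ≠ p₀` (exact division, `h ∣ 2`).  If `⟨u', g j⟩ ≥ -m`, `⟨u', v p₀ i⟩ + h t' ≥ -m` and
`⟨u', v p₀ i + h qC s⟩ - h t' ≥ -m (1 + h (2 - nC s))` for all `i`, `s`, this is a section: over `p₀` both values of the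
`min` satisfy the condition; and `∑ z = r n + τ - ∑_{q ≠ p₀} (n + ⟨u, v⟩) / h` for the selection `s` of the minima
`= r n + τ - n (r - 1 - nC s / 2) - ⟨u', qC s⟩`, which is `≤ 2 n` iff `τ ≤ m (2 - nC s) + ⟨u', qC s⟩`: true, because
`τ ≤ t' + (⟨u', qC s⟩ + (2 - nC s) m - t')`.  `(0, 0)` gives `τ = 0`: the zero section, with `z q - n = -n / max h < 0`: it
settles `k > 0` over `q ≠ p₀`.  `span1` with these functionals (`c = 1`, `1`, `1 + h (2 - nC s)`; `δ`) gives for all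
`(y, k) ≠ 0` some `(u', t')` with `⟨u', y⟩ + k t' < 0`; then `⟨u, y⟩ + k (z p₀ - n) ≤ 2 (⟨u', y⟩ + k t') < 0` for `k ≥ 0`. -/
theorem pwC_stub (X : Dat e r) (hI : ∀ p, Nonempty (X.I p)) (p₀ : Fin r)
    (h2 : ∀ q, q ≠ p₀ → ∀ i, X.h q i = 1 ∨ X.h q i = 2) (hn2 : ∀ s, X.nC p₀ s ≤ 2) {δ : ℝ}
    (hδ : 0 < δ) (hG : X.GoodC p₀ δ) {m : ℕ} (hm : ((e : ℝ) + 1) * 2 ^ (e + 5) / δ ≤ m) :
    X.PW (2 * m) := by
  sorry

/-- **CX-0** (file `Pw0.lean`).  Some point `p∞` has no vertical divisor (affine quotient curve).  For every `p ≠ p∞` and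
`(u, t) ∈ ℤ^e × ℤ`: `z p = n + t`, `z q = n - min_i ⌊(n + ⟨u, v q i⟩) / h q i⌋` for `q ≠ p, p∞` with `I q` nonempty, `z q = 0`
if `I q` is empty, and `z p∞ = 2 n -` the rest: a section if `⟨u, g j⟩ ≥ -n` and `⟨u, v p i⟩ + h t ≥ -n`.  `span1` for these
functionals: a lattice vector `(w, k) = ∑ a_j (g_j, 0) + ∑ b_i (v p i, h p i)` has `k ≥ 0` and this is a decomposition
over `p` with `l = 0`, so (E) gives the hypothesis with `δ = ε`.  For `p∞` itself (or `I p` empty) `k = 0`: use any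
`p ≠ p∞` (`2 ≤ r`). -/
theorem pw0_stub (X : Dat e r) (hr : 2 ≤ r) {p' : Fin r} (hp' : IsEmpty (X.I p')) {ε : ℝ} (hε : 0 < ε)
    (hE : X.EE ε) {n : ℕ} (hn : ((e : ℝ) + 1) * 2 ^ (e + 5) / ε ≤ n) : X.PW n := by
  sorry

/-- **CX-N** (file `Cases.lean`).  If all `m p ≤ 6`: first case.  Otherwise `m p₀ ≥ 7`, `1 - 1/m p₀ ≥ 6/7`, so the sum over
`q ≠ p₀` is at most `8/7`; the `q ≠ p₀` with `m q ≥ 2` are at most two (each gives at least `1/2`); if there is at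
most one: second case; if there are two, `q₁`, `q₂`, none of them is `≥ 3` (`2/3 + 1/2 = 7/6 > 8/7`): third case. -/
theorem cases_stub (hr : 2 ≤ r) (m : Fin r → ℕ) (hm : ∀ p, 1 ≤ m p)
    (hs : ∑ p, (1 - 1 / (m p : ℝ)) ≤ 2) :
    (∀ p, m p ≤ 6) ∨ (∃ p₁ p₂, p₁ ≠ p₂ ∧ ∀ q, q ≠ p₁ → q ≠ p₂ → m q = 1) ∨
      ∃ p₀, (∀ q, q ≠ p₀ → m q ≤ 2) ∧
        (Finset.univ.filter fun q => q ≠ p₀ ∧ m q = 2).card ≤ 2 := by
  sorry

/-- **CX-T** (file `Cpt.lean`).  Compactness: for fixed `p` the set of the `(y, k)` of norm one with `k ≥ 0` (and `k = 0` if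
`I p` is empty) is compact and covered by the open sets `{⟨u, y⟩ + k (z p - n) < 0}`, `(u, z)` a section.  See the end of
`Results/MP_bca9b8_ag/SphericalContractions.lean`. -/
theorem exists_finset_stub (X : Dat e r) {n : ℕ} (h : X.PW n) :
    ∃ T : Finset ((Fin e → ℤ) × (Fin r → ℤ)), (∀ x ∈ T, X.Sec n x.1 x.2) ∧ (∃ x ∈ T, x.1 = 0) ∧
      ∀ (p : Fin r) (y : Fin e → ℝ) (k : ℝ), 0 ≤ k → (y ≠ 0 ∨ k ≠ 0) → (IsEmpty (X.I p) → k = 0) →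
        ∃ x ∈ T, ∑ i, (x.1 i : ℝ) * y i + k * ((x.2 p : ℝ) - n) < 0 := by
  sorry

end Pool.Agent.CX
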